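import Pool.Agent.H18.UP.Defs

/-!
# THEOREM UP: the kernel data `KD` (both cases)

Plane (Julia set not the sphere): `J` the Julia set, `Z` a bounded backward invariant set, `q x w = 1 / (w - x)`, `r = 0`. Sphere: `J = univ`, `Z = univ`, `q = KA`, `r x w = (x - 1) / w - x / (w - 1)`.
`K x w = q x w + V x`, `V` the velocity in the direction of the Lagrange identity at `w`. `step`, `crit`, `val0`: the push forward of the kernel (`pf`, H78/NS). `tri`: the three point estimate in `L ^ 1`.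
`Y`: the velocity in the direction `dg x * q x c0` (`Ys`, `Yc`, `Yv`), with its three point estimate `Yt`. `R` bounds all critical points of `J`.
-/

set_option autoImplicit false

open Filter Topology Polynomial Metric Set MeasureTheory

namespace Pool.Agent.H66.UP

open Pool.Agent.H61.TT Pool.Agent.H57.CP Pool.Agent.H18.UP
open Pool.Agent.H78.NS (pf)

/-- the kernel data -/
structure KD (a b : Polynomial ℂ) (J Z : Set ℂ) (c0 : ℂ) (δ1 R C : ℝ) (q r K : ℂ → ℂ → ℂ) (Y : ℂ → ℂ) : Prop where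
  hδ : 0 < δ1
  hC : 1 ≤ C
  cJ : c0 ∈ J
  c0c : Cr a b c0
  crR : ∀ c ∈ J, Cr a b c → ‖c‖ + 1 ≤ R
  Zm : MeasurableSet Z
  Zp : pre a b Z ⊆ Z
  Zb : ball c0 δ1 ⊆ Z
  rq : ∀ x ∈ J, ∀ w ∈ ball c0 δ1, w ≠ x → q x w = 1 / (w - x) + r x w
  rh : ∀ x ∈ J, DifferentiableOn ℂ (r x) (ball c0 δ1)
  qi : ∀ x ∈ J, IntegrableOn (q x) Z
  Ki : ∀ x ∈ J, IntegrableOn (K x) Z
  step : ∀ x ∈ J, b.eval x ≠ 0 → dg a b x ≠ 0 → ∀ᵐ w : ℂ, w ∈ Z →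
    q x w - pf a b (q x) w = K x w - K (gg a b x) w / dg a b x
  crit : ∀ c ∈ J, Cr a b c → ∀ᵐ w : ℂ, w ∈ Z → q c w - pf a b (q c) w = K c w
  val0 : ∀ c ∈ J, Cr a b c → ∀ᵐ w : ℂ, w ∈ Z → K (gg a b c) w = 0
  tri : ∀ x ∈ J, ∀ y ∈ J, ∀ z ∈ J, ‖x‖ ≤ R → ‖y‖ ≤ R → ‖z‖ ≤ R → x ≠ y → ‖x - y‖ ≤ ‖z - y‖ →
    ∫⁻ w in Z, ‖K x w - K y w - (x - y) / (z - y) * (K z w - K y w)‖ₑ ≤
      ENNReal.ofReal (C * ‖x - y‖ * (1 + Real.log (‖z - y‖ / ‖x - y‖)))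
  Yb : ∀ x ∈ J, ‖x‖ ≤ R → ‖Y x‖ ≤ C
  Ys : ∀ x ∈ J, b.eval x ≠ 0 → dg a b x ≠ 0 → Y x - Y (gg a b x) / dg a b x = - q x c0
  Yc : ∀ c ∈ J, Cr a b c → c ≠ c0 → Y c = - q c c0
  Yv : Y (gg a b c0) = - ((derivative (ww a b)).eval c0 / b.eval c0 ^ 2)
  Yt : ∀ x ∈ J, ∀ y ∈ J, ∀ z ∈ J, ‖x‖ ≤ R → ‖y‖ ≤ R → ‖z‖ ≤ R → x ≠ y → ‖x - y‖ ≤ ‖z - y‖ →
    ‖Y x - Y y - (x - y) / (z - y) * (Y z - Y y)‖ ≤ C * ‖x - y‖ * (1 + Real.log (‖z - y‖ / ‖x - y‖))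

end Pool.Agent.H66.UP
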