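import Pool.Agent.H3.NC.KIN
import Pool.Agent.H1.PU.Ker

/-!
# Module [H66 UP KI3]: the three point integral over the whole plane

`ki3`: for `x ≠ y`, `z ≠ y`, `‖x - y‖ ≤ ‖z - y‖`: the integral over the plane of `‖1/(w-x) - 1/(w-y) - t (1/(w-z) - 1/(w-y))‖`, `t = (x-y)/(z-y)`, is at most `C ‖x - y‖ (1 + log (‖z - y‖ / ‖x - y‖))`. `ki3_ka`: the same for the kernel `KA` (H1/PU): the difference `KA a w - 1/(w - a) = (a-1)/w - a/(w-1)` (`ka_pf`) is affine in `a` and cancels.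
PROOF. Off the finite set `{x, y, z}` the function is `(x - y) (x - z) / ((w - x) (w - y) (w - z))`. Translate by `y` (`lintegral_sub_right_eq_self`): `α = x - y`, `β = z - y`, `0 < ‖α‖ ≤ ‖β‖`, `I = ∫ ‖α‖ ‖α - β‖ / (‖w‖ ‖w - α‖ ‖w - β‖)`.
FAR, `‖w‖ ≥ 2 ‖β‖`: `‖w - α‖, ‖w - β‖ ≥ ‖w‖ / 2`, `‖α - β‖ ≤ 2 ‖β‖`: at most `8 ‖α‖ ‖β‖ ∫_(‖w‖ ≥ 2‖β‖) ‖w‖ ^ (-3) ≤ C ‖α‖` (dyadic annuli `2^k ρ ≤ ‖w‖ < 2^(k+1) ρ`, `ρ = 2 ‖β‖`: the area is at most `π 4^(k+1) ρ^2`, the integrand at most `(2^k ρ)^(-3)`: sum `≤ 8 π / ρ`).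
NEAR, `‖w‖ < 2 ‖β‖`: `‖α - β‖ / (‖w - α‖ ‖w - β‖) ≤ 1 / ‖w - α‖ + 1 / ‖w - β‖`, so it is at most `‖α‖ (J α + J β)`, `J γ = ∫_(‖w‖ < 2 ‖β‖) 1 / (‖w‖ ‖w - γ‖)` for `0 < ‖γ‖ ≤ ‖β‖`.
`J γ`: for `‖w‖ < 2 ‖γ‖`: one of `‖w‖, ‖w - γ‖` is at least `‖γ‖ / 2`, so `1 / (‖w‖ ‖w - γ‖) ≤ (2 / ‖γ‖) (1 / ‖w‖ + 1 / ‖w - γ‖)`, integral at most `(2 / ‖γ‖) (2 * 3 π * 2 ‖γ‖) = 24 π` (`kin_ball`, H3/NC/KIN). For `2 ‖γ‖ ≤ ‖w‖ < 2 ‖β‖`: `‖w - γ‖ ≥ ‖w‖ / 2`, at most `2 ‖w‖ ^ (-2)`; dyadic annuli `2^k ρ ≤ ‖w‖ < 2^(k+1) ρ`, `ρ = 2 ‖γ‖`, each contributes at most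
`2 * π * 4`, and at most `log (‖β‖ / ‖γ‖) / log 2 + 1` of them are needed.
-/

set_option autoImplicit false

open Filter Topology Metric Set MeasureTheory

namespace Pool.Agent.H66.UP

open Pool.Agent.H1.PU (KA)

/-- integrals of radial functions -/
private theorem rad {f : ℝ → ℝ} (hf : ∀ r, 0 ≤ r → 0 ≤ f r) (hi : IntegrableOn (fun y => y * f y) (Ioi 0)) :
    ∫⁻ w : ℂ, ENNReal.ofReal (f ‖w‖) = ENNReal.ofReal (2 * Real.pi * ∫ y in Ioi (0 : ℝ), y * f y) := by
  have h1 : Integrable (fun w : ℂ => f ‖w‖) := by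
    rw [integrable_fun_norm_addHaar (E := ℂ) (F := ℝ) volume (f := f), Complex.finrank_real_complex]
    simpa using hi
  rw [← ofReal_integral_eq_lintegral_ofReal h1 (Eventually.of_forall fun w => hf _ (norm_nonneg w))]
  congr 1
  rw [integral_fun_norm_addHaar (E := ℂ) (F := ℝ) volume f, Complex.finrank_real_complex]
  have h2 : volume.real (ball (0 : ℂ) 1) = Real.pi := by
    simp [Measure.real, Complex.volume_ball]
  rw [h2]
  simp only [Nat.add_one_sub_one, pow_one, smul_eq_mul, nsmul_eq_mul, Nat.cast_ofNat]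
  ring

/-- near function -/
private noncomputable def fR (R c r : ℝ) : ℝ := if r < R then 1 / (r * (r + c)) else 0

private theorem fR_nonneg {R c r : ℝ} (hc : 0 ≤ c) (hr : 0 ≤ r) : 0 ≤ fR R c r := by
  unfold fR
  split_ifs <;> positivity

private theorem fR_meas (R c : ℝ) : Measurable (fR R c) := by
  unfold fR
  exact Measurable.ite measurableSet_Iio (by fun_prop) measurable_const

private theorem fR_int {R c : ℝ} (hR : 0 < R) (hc : 0 < c) :
    ∫⁻ w : ℂ, ENNReal.ofReal (fR R c ‖w‖) = ENNReal.ofReal (2 * Real.pi * Real.log ((R + c) / c)) := by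
  have h1 : ∀ y ∈ Ioi (0 : ℝ), y * fR R c y = (Iio R).indicator (fun y => (y + c)⁻¹) y := by
    intro y hy
    have hy0 : 0 < y := hy
    unfold fR
    by_cases h : y < R
    · rw [if_pos h, indicator_of_mem (show y ∈ Iio R from h)]
      field_simp
    · rw [if_neg h, indicator_of_notMem (show y ∉ Iio R from h), mul_zero]
  have hc1 : ContinuousOn (fun y : ℝ => (y + c)⁻¹) (Icc 0 R) := by
    refine ContinuousOn.inv₀ (by fun_prop) fun y hy => ?_
    have := hy.1
    positivity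
  have hc2 : IntegrableOn (fun y : ℝ => (y + c)⁻¹) (Ioo 0 R) :=
    (hc1.integrableOn_Icc).mono_set Ioo_subset_Icc_self
  have h2 : IntegrableOn (fun y => y * fR R c y) (Ioi 0) := by
    refine IntegrableOn.congr_fun ?_ (fun y hy => (h1 y hy).symm) measurableSet_Ioi
    rw [IntegrableOn, integrable_indicator_iff measurableSet_Iio, IntegrableOn,
      Measure.restrict_restrict measurableSet_Iio, inter_comm, Ioi_inter_Iio]
    exact hc2
  rw [rad (fun r hr => fR_nonneg hc.le hr) h2]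
  congr 2
  rw [setIntegral_congr_fun measurableSet_Ioi h1, setIntegral_indicator measurableSet_Iio, Ioi_inter_Iio,
    ← integral_Ioc_eq_integral_Ioo, ← intervalIntegral.integral_of_le hR.le,
    intervalIntegral.integral_comp_add_right (fun y => y⁻¹) c, zero_add,
    integral_inv_of_pos hc (by positivity)]

/-- far function -/
private noncomputable def hF (b r : ℝ) : ℝ := 1 / (r * (r + b) ^ 2)

private theorem hF_nonneg {b r : ℝ} (hr : 0 ≤ r) : 0 ≤ hF b r := by
  unfold hF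
  positivity

private theorem hF_meas (b : ℝ) : Measurable (hF b) := by
  unfold hF
  fun_prop

private theorem hF_int {b : ℝ} (hb : 0 < b) :
    ∫⁻ w : ℂ, ENNReal.ofReal (hF b ‖w‖) = ENNReal.ofReal (2 * Real.pi * b⁻¹) := by
  have h1 : ∀ y ∈ Ioi (0 : ℝ), y * hF b y = ((y + b) ^ 2)⁻¹ := by
    intro y hy
    have hy0 : 0 < y := hy
    unfold hF
    field_simp
  have hd : ∀ y ∈ Ici (0 : ℝ), HasDerivAt (fun y : ℝ => -(y + b)⁻¹) (((y + b) ^ 2)⁻¹) y := by
    intro y hy
    have hy0 : 0 ≤ y := hy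
    have h2 : HasDerivAt (fun y : ℝ => y + b) 1 y := (hasDerivAt_id y).add_const b
    have h3 := (h2.inv (by positivity)).neg
    refine h3.congr_deriv ?_
    field_simp
  have hp : ∀ y ∈ Ioi (0 : ℝ), 0 ≤ ((y + b) ^ 2)⁻¹ := fun y hy => by positivity
  have hlim : Tendsto (fun y : ℝ => -(y + b)⁻¹) atTop (𝓝 0) := by
    have h2 : Tendsto (fun y : ℝ => y + b) atTop atTop := tendsto_atTop_add_const_right _ _ tendsto_id
    have h3 := h2.inv_tendsto_atTop.neg
    simpa using h3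
  have hi := integrableOn_Ioi_deriv_of_nonneg' hd hp hlim
  have hval := integral_Ioi_of_hasDerivAt_of_nonneg' hd hp hlim
  have h2 : IntegrableOn (fun y => y * hF b y) (Ioi 0) :=
    IntegrableOn.congr_fun hi (fun y hy => (h1 y hy).symm) measurableSet_Ioi
  rw [rad (fun r hr => hF_nonneg hr) h2]
  congr 2
  rw [setIntegral_congr_fun measurableSet_Ioi h1, hval]
  simp

/-- `1/(rs)` -/
private theorem two_pt {r s c : ℝ} (hr : 0 < r) (hs : 0 < s) (hc : 0 < c) (h : c ≤ r + s) :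
    1 / (r * s) ≤ 3 * (1 / (r * (r + c)) + 1 / (s * (s + c))) := by
  rcases le_total r s with h1 | h1
  · have h2 : 1 / (r * s) ≤ 3 * (1 / (r * (r + c))) := by
      rw [mul_one_div, div_le_div_iff₀ (by positivity) (by positivity)]
      nlinarith
    have h3 : 0 ≤ 1 / (s * (s + c)) := by positivity
    linarith
  · have h2 : 1 / (r * s) ≤ 3 * (1 / (s * (s + c))) := by
      rw [mul_one_div, div_le_div_iff₀ (by positivity) (by positivity)]
      nlinarith
    have h3 : 0 ≤ 1 / (r * (r + c)) := by positivity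
    linarith

/-- the pointwise bound -/
private theorem ptw {a b r s u e : ℝ} (ha : 0 < a) (hab : a ≤ b) (hr : 0 < r) (hs : 0 < s) (hu : 0 < u)
    (h1 : a ≤ r + s) (h2 : b ≤ r + u) (h3 : s ≤ r + a) (h4 : u ≤ r + b) (h5 : r ≤ s + a) (h6 : r ≤ u + b)
    (he : 0 ≤ e) (he1 : e ≤ s + u) (he2 : e ≤ 2 * b) :
    a * e / (r * s * u) ≤ 3 * a * (fR (3 * b) a r + fR (3 * b) a s + (fR (3 * b) b r + fR (3 * b) b u)) +
      18 * a * b * hF b r := by
  have hb : 0 < b := ha.trans_le hab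
  have p1 := fR_nonneg (R := 3 * b) ha.le hr.le
  have p2 := fR_nonneg (R := 3 * b) ha.le hs.le
  have p3 := fR_nonneg (R := 3 * b) hb.le hr.le
  have p4 := fR_nonneg (R := 3 * b) hb.le hu.le
  have p5 := hF_nonneg (b := b) hr.le
  rcases lt_or_ge r (2 * b) with h | h
  · have q1 : fR (3 * b) a r = 1 / (r * (r + a)) := by unfold fR; rw [if_pos (by linarith)]
    have q2 : fR (3 * b) a s = 1 / (s * (s + a)) := by unfold fR; rw [if_pos (by linarith)]
    have q3 : fR (3 * b) b r = 1 / (r * (r + b)) := by unfold fR; rw [if_pos (by linarith)]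
    have q4 : fR (3 * b) b u = 1 / (u * (u + b)) := by unfold fR; rw [if_pos (by linarith)]
    have k1 := two_pt hr hs ha h1
    have k2 := two_pt hr hu hb h2
    have k3 : a * e / (r * s * u) ≤ a * (1 / (r * s) + 1 / (r * u)) := by
      have : a * (1 / (r * s) + 1 / (r * u)) = a * (s + u) / (r * s * u) := by
        field_simp
        ring
      rw [this]
      apply div_le_div_of_nonneg_right _ (by positivity)
      exact mul_le_mul_of_nonneg_left he1 ha.le
    have k4 : a * (1 / (r * s) + 1 / (r * u)) ≤ a * (3 * (1 / (r * (r + a)) + 1 / (s * (s + a))) +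
        3 * (1 / (r * (r + b)) + 1 / (u * (u + b)))) := mul_le_mul_of_nonneg_left (by linarith) ha.le
    rw [q1, q2, q3, q4]
    have k5 : 0 ≤ 18 * a * b * hF b r := by positivity
    linarith
  · have k1 : a * e / (r * s * u) ≤ 18 * a * b * hF b r := by
      unfold hF
      rw [mul_one_div, div_le_div_iff₀ (by positivity) (by positivity)]
      have s1 : r / 2 ≤ s := by linarith
      have u1 : r / 2 ≤ u := by linarith
      have su : r ^ 2 / 4 ≤ s * u := by
        have := mul_le_mul s1 u1 (by positivity) (by positivity)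
        nlinarith
      have rb : (r + b) ^ 2 ≤ 9 / 4 * r ^ 2 := by nlinarith
      have h7 : a * e * (r * (r + b) ^ 2) ≤ a * (2 * b) * (r * (9 / 4 * r ^ 2)) := by
        apply mul_le_mul (mul_le_mul_of_nonneg_left he2 ha.le) _ (by positivity) (by positivity)
        exact mul_le_mul_of_nonneg_left rb hr.le
      have h8 : a * (2 * b) * (r * (9 / 4 * r ^ 2)) ≤ 18 * a * b * (r * s * u) := by
        have : r * (r ^ 2 / 4) ≤ r * (s * u) := mul_le_mul_of_nonneg_left su hr.le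
        have hab' : 0 ≤ a * b := by positivity
        nlinarith [mul_le_mul_of_nonneg_left this hab']
      linarith
    have k2 : 0 ≤ 3 * a * (fR (3 * b) a r + fR (3 * b) a s + (fR (3 * b) b r + fR (3 * b) b u)) := by
      positivity
    linarith

private theorem ae_ne (s : Set ℂ) (hs : s.Finite) : ∀ᵐ w : ℂ, w ∉ s := by
  exact hs.countable.ae_notMem volume

private theorem shift_int (g : ℝ → ℝ) (p : ℂ) :
    ∫⁻ w : ℂ, ENNReal.ofReal (g ‖w - p‖) = ∫⁻ w : ℂ, ENNReal.ofReal (g ‖w‖) :=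
  lintegral_sub_right_eq_self (fun w : ℂ => ENNReal.ofReal (g ‖w‖)) p

theorem ki3 : ∃ C : ℝ, 0 < C ∧ ∀ x y z : ℂ, x ≠ y → ‖x - y‖ ≤ ‖z - y‖ →
    ∫⁻ w : ℂ, ‖1 / (w - x) - 1 / (w - y) - (x - y) / (z - y) * (1 / (w - z) - 1 / (w - y))‖ₑ ≤
      ENNReal.ofReal (C * ‖x - y‖ * (1 + Real.log (‖z - y‖ / ‖x - y‖))) := by
  refine ⟨72 * Real.pi, by positivity, fun x y z hxy hle => ?_⟩
  set a : ℝ := ‖x - y‖ with ha
  set b : ℝ := ‖z - y‖ with hb
  have ha0 : 0 < a := norm_pos_iff.2 (sub_ne_zero.2 hxy)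
  have hb0 : 0 < b := ha0.trans_le hle
  have hzy : z ≠ y := sub_ne_zero.1 (norm_pos_iff.1 hb0)
  -- the majorant
  have hpt : ∀ᵐ w : ℂ, ‖1 / (w - x) - 1 / (w - y) - (x - y) / (z - y) * (1 / (w - z) - 1 / (w - y))‖ₑ ≤
      ENNReal.ofReal (3 * a) * ((ENNReal.ofReal (fR (3 * b) a ‖w - y‖) + ENNReal.ofReal (fR (3 * b) a ‖w - x‖)) +
        (ENNReal.ofReal (fR (3 * b) b ‖w - y‖) + ENNReal.ofReal (fR (3 * b) b ‖w - z‖))) +
        ENNReal.ofReal (18 * a * b) * ENNReal.ofReal (hF b ‖w - y‖) := by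
    filter_upwards [ae_ne {x, y, z} (by simp)] with w hw
    simp only [mem_insert_iff, mem_singleton_iff, not_or] at hw
    obtain ⟨w1, w2, w3⟩ := hw
    have n1 : w - x ≠ 0 := sub_ne_zero.2 w1
    have n2 : w - y ≠ 0 := sub_ne_zero.2 w2
    have n3 : w - z ≠ 0 := sub_ne_zero.2 w3
    have n4 : z - y ≠ 0 := sub_ne_zero.2 hzy
    have e1 : 1 / (w - x) - 1 / (w - y) - (x - y) / (z - y) * (1 / (w - z) - 1 / (w - y)) =
        (x - y) * (x - z) / ((w - y) * (w - x) * (w - z)) := by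
      field_simp
      ring
    rw [e1, ← ofReal_norm, norm_div, norm_mul, norm_mul, norm_mul, ← ha]
    have t1 : a ≤ ‖w - y‖ + ‖w - x‖ := by
      have := norm_sub_le (w - y) (w - x)
      rwa [show w - y - (w - x) = x - y by ring] at this
    have t2 : b ≤ ‖w - y‖ + ‖w - z‖ := by
      have := norm_sub_le (w - y) (w - z)
      rwa [show w - y - (w - z) = z - y by ring] at this
    have t3 : ‖w - x‖ ≤ ‖w - y‖ + a := by
      have := norm_sub_le (w - y) (x - y)
      rwa [show w - y - (x - y) = w - x by ring] at this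
    have t4 : ‖w - z‖ ≤ ‖w - y‖ + b := by
      have := norm_sub_le (w - y) (z - y)
      rwa [show w - y - (z - y) = w - z by ring] at this
    have t5 : ‖w - y‖ ≤ ‖w - x‖ + a := by
      have := norm_add_le (w - x) (x - y)
      rwa [show w - x + (x - y) = w - y by ring] at this
    have t6 : ‖w - y‖ ≤ ‖w - z‖ + b := by
      have := norm_add_le (w - z) (z - y)
      rwa [show w - z + (z - y) = w - y by ring] at this
    have t7 : ‖x - z‖ ≤ ‖w - x‖ + ‖w - z‖ := by
      have := norm_sub_le (w - z) (w - x)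
      rw [show w - z - (w - x) = x - z by ring] at this
      linarith
    have t8 : ‖x - z‖ ≤ 2 * b := by
      have := norm_sub_le (x - y) (z - y)
      rw [show x - y - (z - y) = x - z by ring] at this
      linarith
    have hr := norm_pos_iff.2 n2
    have hs := norm_pos_iff.2 n1
    have hu := norm_pos_iff.2 n3
    have key := ptw ha0 hle hr hs hu t1 t2 t3 t4 t5 t6 (norm_nonneg (x - z)) t7 t8
    refine (ENNReal.ofReal_le_ofReal key).trans (le_of_eq ?_)
    have p1 := fR_nonneg (R := 3 * b) ha0.le hr.le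
    have p2 := fR_nonneg (R := 3 * b) ha0.le hs.le
    have p3 := fR_nonneg (R := 3 * b) hb0.le hr.le
    have p4 := fR_nonneg (R := 3 * b) hb0.le hu.le
    have p5 := hF_nonneg (b := b) hr.le
    rw [ENNReal.ofReal_add (by positivity) (by positivity), ENNReal.ofReal_mul (by positivity : 0 ≤ 3 * a),
      ENNReal.ofReal_mul (by positivity : 0 ≤ 18 * a * b), ENNReal.ofReal_add (by positivity) (by positivity),
      ENNReal.ofReal_add p1 p2, ENNReal.ofReal_add p3 p4]
  refine (lintegral_mono_ae hpt).trans ?_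
  have mf : ∀ (c : ℝ) (p : ℂ), Measurable fun w : ℂ => ENNReal.ofReal (fR (3 * b) c ‖w - p‖) := fun c p =>
    ENNReal.measurable_ofReal.comp ((fR_meas (3 * b) c).comp (by fun_prop))
  have mh : Measurable fun w : ℂ => ENNReal.ofReal (hF b ‖w - y‖) :=
    ENNReal.measurable_ofReal.comp ((hF_meas b).comp (by fun_prop))
  have m1 : Measurable fun w : ℂ => ENNReal.ofReal (fR (3 * b) a ‖w - y‖) +
      ENNReal.ofReal (fR (3 * b) a ‖w - x‖) := (mf a y).add (mf a x)
  have m2 : Measurable fun w : ℂ => (ENNReal.ofReal (fR (3 * b) a ‖w - y‖) +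
      ENNReal.ofReal (fR (3 * b) a ‖w - x‖)) + (ENNReal.ofReal (fR (3 * b) b ‖w - y‖) +
      ENNReal.ofReal (fR (3 * b) b ‖w - z‖)) := m1.add ((mf b y).add (mf b z))
  have m3 : Measurable fun w : ℂ => ENNReal.ofReal (3 * a) * ((ENNReal.ofReal (fR (3 * b) a ‖w - y‖) +
      ENNReal.ofReal (fR (3 * b) a ‖w - x‖)) + (ENNReal.ofReal (fR (3 * b) b ‖w - y‖) +
      ENNReal.ofReal (fR (3 * b) b ‖w - z‖))) := m2.const_mul _
  rw [lintegral_add_left m3, lintegral_const_mul _ m2,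
    lintegral_const_mul _ mh, lintegral_add_left m1,
    lintegral_add_left (mf a y), lintegral_add_left (mf b y),
    shift_int (fR (3 * b) a) y, shift_int (fR (3 * b) a) x, shift_int (fR (3 * b) b) y,
    shift_int (fR (3 * b) b) z, shift_int (hF b) y, fR_int (by positivity) ha0,
    fR_int (by positivity) hb0, hF_int hb0]
  -- the numbers
  set L : ℝ := Real.log (b / a) with hL
  have hL0 : 0 ≤ L := Real.log_nonneg (by rw [le_div_iff₀ ha0]; linarith)
  have hl4 : Real.log 4 ≤ 3 / 2 := by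
    have : Real.log 4 = 2 * Real.log 2 := by
      rw [show (4 : ℝ) = 2 ^ 2 by norm_num, Real.log_pow]
      norm_num
    rw [this]
    linarith [Real.log_two_lt_d9]
  have hla : Real.log ((3 * b + a) / a) ≤ 3 / 2 + L := by
    have e1 : (3 * b + a) / a ≤ 4 * (b / a) := by
      rw [← mul_div_assoc]
      exact div_le_div_of_nonneg_right (by linarith) ha0.le
    have e2 := Real.log_le_log (by positivity) e1
    rw [Real.log_mul (by norm_num) (by positivity)] at e2
    linarith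
  have hlb : Real.log ((3 * b + b) / b) ≤ 3 / 2 := by
    have : (3 * b + b) / b = 4 := by field_simp; norm_num
    rw [this]
    exact hl4
  have hla0 : 0 ≤ Real.log ((3 * b + a) / a) := Real.log_nonneg (by rw [le_div_iff₀ ha0]; linarith)
  have hlb0 : 0 ≤ Real.log ((3 * b + b) / b) := Real.log_nonneg (by rw [le_div_iff₀ hb0]; linarith)
  have hpi := Real.pi_pos
  rw [← ENNReal.ofReal_add (by positivity) (by positivity), ← ENNReal.ofReal_add (by positivity) (by positivity),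
    ← ENNReal.ofReal_add (by positivity) (by positivity), ← ENNReal.ofReal_mul (by positivity),
    ← ENNReal.ofReal_mul (by positivity), ← ENNReal.ofReal_add (by positivity) (by positivity)]
  apply ENNReal.ofReal_le_ofReal
  have e3 : 18 * a * b * (2 * Real.pi * b⁻¹) = 36 * Real.pi * a := by
    field_simp
    norm_num
  rw [e3]
  have hpa : 0 < Real.pi * a := by positivity
  have e4 : 3 * a * (2 * Real.pi * Real.log ((3 * b + a) / a) + 2 * Real.pi * Real.log ((3 * b + a) / a) +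
      (2 * Real.pi * Real.log ((3 * b + b) / b) + 2 * Real.pi * Real.log ((3 * b + b) / b))) =
      (Real.pi * a) * (12 * Real.log ((3 * b + a) / a) + 12 * Real.log ((3 * b + b) / b)) := by ring
  rw [e4]
  have e5 : (Real.pi * a) * (12 * Real.log ((3 * b + a) / a) + 12 * Real.log ((3 * b + b) / b)) ≤
      (Real.pi * a) * (36 + 12 * L) := mul_le_mul_of_nonneg_left (by linarith) hpa.le
  nlinarith [mul_nonneg hpa.le hL0]

theorem ki3_ka : ∃ C : ℝ, 0 < C ∧ ∀ x y z : ℂ, x ≠ y → ‖x - y‖ ≤ ‖z - y‖ →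
    ∫⁻ w : ℂ, ‖KA x w - KA y w - (x - y) / (z - y) * (KA z w - KA y w)‖ₑ ≤
      ENNReal.ofReal (C * ‖x - y‖ * (1 + Real.log (‖z - y‖ / ‖x - y‖))) := by
  obtain ⟨C, hC, h⟩ := ki3
  refine ⟨C, hC, fun x y z hxy hle => le_trans (le_of_eq ?_) (h x y z hxy hle)⟩
  have hzy : z - y ≠ 0 := norm_pos_iff.1 ((norm_pos_iff.2 (sub_ne_zero.2 hxy)).trans_le hle)
  apply lintegral_congr_ae
  filter_upwards [ae_ne {0, 1, x, y, z} (by simp)] with w hw
  simp only [mem_insert_iff, mem_singleton_iff, not_or] at hw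
  obtain ⟨w0, w1, w2, w3, w4⟩ := hw
  rw [Pool.Agent.H1.PU.ka_pf w0 w1 w2, Pool.Agent.H1.PU.ka_pf w0 w1 w3, Pool.Agent.H1.PU.ka_pf w0 w1 w4]
  congr 1
  have n1 : w - 1 ≠ 0 := sub_ne_zero.2 w1
  have e : (x - y) / (z - y) * ((z - y) * (1 / w - 1 / (w - 1))) = (x - y) * (1 / w - 1 / (w - 1)) := by
    rw [← mul_assoc, div_mul_cancel₀ _ hzy]
  linear_combination -e

end Pool.Agent.H66.UP
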