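import Pool.Agent.H66.UP.KS1

/-!
# Module [H66 UP GS]: the geometric setting for Julia set = sphere

PROOF of `geo_s` (`δ0 = 1`). `Jc`, `Ji`, `back`: trivial. `inf`: infinity is fixed (`h.inf`). `fc`: a critical point of the sphere is not infinity and its orbit does not meet infinity: infinity is a fixed point, `not_pre` (H47/PS/PRE: the orbit of a critical point in the Julia set is infinite) (if `f^[n] c = ∞` then `f^[n+1] c = ∞`); so `c = z` in the plane, `b z ≠ 0` (otherwise the image is infinity; `rat_coe`), `ww z = 0` (`crit_coe`): the first alternative.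
`sim`: `sim_s` (KS1) with `hV`. `ni`, `rep`: `h.ni`, `h.rep`. `ring`: `θ = 1 / 8`, `r1 = 1`: the ball with centre `c + 3 ρ / 16` and radius `ρ / 16` is contained in the ring; `per_dense` (H44/NR/Pdj) gives a periodic point of the sphere in it (image of the ball under the embedding of the plane, open), its orbit does not meet infinity (infinity is fixed), so `w ∈ (pre a b)^[p] {w}`
(iterates of `rat` are the iterates of `gg`: `fin_orba`, H64/NC/SFC; `(pre a b)^[p] {w}`: induction on `p`, see `BRN` of H3/NC for lemmas on `(pre a b)^[n]`).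
-/

set_option autoImplicit false

open Filter Topology Polynomial Metric Set MeasureTheory

namespace Pool.Agent.H66.UP

open Pool.Agent.H44.Fatou (rat rat_continuous rat_coe rat_coe_of_ne pt crit_coe)
open Pool.Agent.H32.BT Pool.Agent.H79.Eul Pool.Agent.H79.Par
open Pool.Agent.H44.RC Pool.Agent.H47.NN Pool.Agent.H44.ND Pool.Agent.H79.ES Pool.Agent.H47.PS Pool.Agent.H64.NC
open Pool.Agent.H61.TT Pool.Agent.H57.CP Pool.Agent.H3.NC Pool.Agent.H78.NS Pool.Agent.H18.UP

variable {d : ℕ} {v : E d}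

theorem geo_s (hd : 2 ≤ d) (hcop : IsCoprime (pol v.1) (pol v.2))
    (hdeg : max (pol v.1).natDegree (pol v.2).natDegree = d) (hup : ¬ Up v) (hJ : JS (Rf v) = univ)
    {L0 θ : ℝ} (h : SP d (pol v.1) (pol v.2) L0 θ)
    (hV : ∀ j ≤ 2 * d, ∃ V : ℂ → ℂ, VelP (pol v.1) (pol v.2) (X ^ j) V) : Geo d (pol v.1) (pol v.2) univ 1 := by
  have hinf : rat (pol v.1) (pol v.2) OnePoint.infty = OnePoint.infty := h.inf
  have hJm : ∀ x : OnePoint ℂ, x ∈ JS (Rf v) := fun x => hJ ▸ mem_univ x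
  -- orbits of periodic points do not meet infinity
  have hper : ∀ (x : ℂ) (p : ℕ), 0 < p → (rat (pol v.1) (pol v.2))^[p] (x : OnePoint ℂ) = (x : OnePoint ℂ) →
      ∀ i : ℕ, (rat (pol v.1) (pol v.2))^[i] (x : OnePoint ℂ) ≠ OnePoint.infty := by
    intro x p hp hx i h1
    have h2 : i ≤ p * i := Nat.le_mul_of_pos_left _ hp
    have h3 := inf_it hinf h2 h1
    rw [Function.iterate_mul, Function.iterate_fixed hx] at h3
    exact OnePoint.coe_ne_infty _ h3
  obtain ⟨V, hV'⟩ : ∃ V : ℕ → ℂ → ℂ, ∀ j ≤ 2 * d, VelP (pol v.1) (pol v.2) (X ^ j) (V j) := by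
    have h1 : ∀ j, ∃ W : ℂ → ℂ, j ≤ 2 * d → VelP (pol v.1) (pol v.2) (X ^ j) W := by
      intro j
      by_cases hj : j ≤ 2 * d
      · obtain ⟨W, hW⟩ := hV j hj
        exact ⟨W, fun _ => hW⟩
      · exact ⟨0, fun h2 => absurd h2 hj⟩
    choose V hV' using h1
    exact ⟨V, hV'⟩
  refine ⟨h.rt, isClosed_univ, fun _ _ _ => mem_univ _, fun _ _ _ => mem_univ _, one_pos, ?_, ?_, ?_, ?_, ?_, ?_⟩
  · intro n w _
    rw [Function.iterate_fixed hinf]
    exact OnePoint.infty_ne_coe w
  · intro c hc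
    left
    have hnp := not_pre hd hcop hdeg hup (c := c) hc (hJm c)
    induction c using OnePoint.rec with
    | infty =>
      exfalso
      exact hnp 0 1 one_pos hinf.symm
    | coe z =>
      refine ⟨z, mem_univ _, rfl, ?_, crit_coe hc⟩
      intro hb
      have h1 : (Rf v)^[1] (z : OnePoint ℂ) = OnePoint.infty := by
        change rat (pol v.1) (pol v.2) (z : OnePoint ℂ) = OnePoint.infty
        rw [rat_coe, hb]
        unfold pt
        rw [if_pos rfl]
      have h2 : (Rf v)^[2] (z : OnePoint ℂ) = OnePoint.infty := inf_it hinf (by norm_num) h1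
      exact hnp 1 2 (by norm_num) (h1.trans h2.symm)
  · intro c _ hc
    exact sim_s (N := 2 * d) (by omega) hV' hc
  · exact fun y _ ρ hρ => h.ni y ρ hρ
  · exact fun x _ p hp hx => h.rep x p hp hx
  · refine ⟨1 / 8, 1, by norm_num, one_pos, fun c _ hc ρ hρ _ => ?_⟩
    have hU : (fun z : ℂ => (z : OnePoint ℂ)) '' ball (c + ((3 * ρ / 16 : ℝ) : ℂ)) (ρ / 16) ∈
        𝓝 (((c + ((3 * ρ / 16 : ℝ) : ℂ) : ℂ)) : OnePoint ℂ) :=
      (OnePoint.isOpenEmbedding_coe.isOpenMap _ isOpen_ball).mem_nhds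
        ⟨_, mem_ball_self (by positivity), rfl⟩
    obtain ⟨x, ⟨w, hw, rfl⟩, N, hN, hwN⟩ := Pool.Agent.H44.NR.per_dense hd hcop hdeg (hJm _) hU
    have hwN' : (rat (pol v.1) (pol v.2))^[N] (w : OnePoint ℂ) = (w : OnePoint ℂ) := hwN
    rw [mem_ball, dist_eq_norm] at hw
    have h16 : ‖((3 * ρ / 16 : ℝ) : ℂ)‖ = 3 * ρ / 16 := by
      rw [Complex.norm_real, Real.norm_eq_abs, abs_of_pos (by positivity)]
    have e : w - c = (w - (c + ((3 * ρ / 16 : ℝ) : ℂ))) + ((3 * ρ / 16 : ℝ) : ℂ) := by ring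
    refine ⟨w, mem_univ _, ?_, ?_, N, hN, ?_⟩
    · have h1 := norm_sub_norm_le (((3 * ρ / 16 : ℝ) : ℂ)) (-(w - (c + ((3 * ρ / 16 : ℝ) : ℂ))))
      rw [norm_neg, h16] at h1
      have e2 : ((3 * ρ / 16 : ℝ) : ℂ) - -(w - (c + ((3 * ρ / 16 : ℝ) : ℂ))) = w - c := by ring
      rw [e2] at h1
      linarith
    · rw [e]
      refine (norm_add_le _ _).trans ?_
      rw [h16]
      linarith
    · rw [mem_pre]
      have horb := fun i => fin_orba hinf (hper w N hN hwN') i
      refine ⟨fun i _ => (horb i).1, ?_⟩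
      have h1 := (horb N).2
      rw [hwN'] at h1
      exact (OnePoint.coe_injective h1).symm

end Pool.Agent.H66.UP
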