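import Pool.Agent.H66.UP.KS4
import Pool.Agent.H66.UP.GS

/-!
# Module [H66 UP CS]: the chart and all data for Julia set = sphere

`ch_s`: a chart in which `0`, `1`, `∞` are fixed and a given point is in the plane (first part of the proof of `sph_chart`, H64/NC/SFM). `all_s`: the geometric setting and the kernel data in this chart (`sp_of`, `vel_s`, `geo_s`, `kd_s`; `crit_pl`: critical points are in the plane).
-/

set_option autoImplicit false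

open Filter Topology Polynomial Metric Set MeasureTheory

namespace Pool.Agent.H66.UP

open Pool.Agent.H44.Fatou (rat rat_continuous rat_coe rat_coe_of_ne pt crit_coe)
open Pool.Agent.H32.BT Pool.Agent.H79.Eul Pool.Agent.H79.Par
open Pool.Agent.H35.EX Pool.Agent.H44.RR Pool.Agent.H56.HR Pool.Agent.H44.RC Pool.Agent.H47.RJ
open Pool.Agent.H47.NM Pool.Agent.H47.NN Pool.Agent.H44.ND Pool.Agent.H79.ES Pool.Agent.H44.RG
open Pool.Agent.H44.CP Pool.Agent.H47.PS Pool.Agent.H64.NC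
open Pool.Agent.H61.TT Pool.Agent.H57.CP Pool.Agent.H3.NC Pool.Agent.H78.NS Pool.Agent.H18.UP
open Pool.Agent.H1.PU (KA)

variable {d : ℕ} {v : E d}

/-- the chart -/
theorem ch_s (hd : 2 ≤ d) (hcop : IsCoprime (pol v.1) (pol v.2))
    (hdeg : max (pol v.1).natDegree (pol v.2).natDegree = d) (hup : ¬ Up v) (hJ : JS (Rf v) = univ)
    (y : OnePoint ℂ) : ∃ (L G : E d → E d) (φ : OnePoint ℂ ≃ₜ OnePoint ℂ) (K : ℝ), Ch d L G φ K ∧
      φ y ≠ OnePoint.infty ∧ Rf (L v) ((0 : ℂ) : OnePoint ℂ) = ((0 : ℂ) : OnePoint ℂ) ∧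
      Rf (L v) ((1 : ℂ) : OnePoint ℂ) = ((1 : ℂ) : OnePoint ℂ) ∧ Rf (L v) OnePoint.infty = OnePoint.infty ∧
      ¬ Up (L v) ∧ JS (Rf (L v)) = univ := by
  have hJa : ∀ x, x ∈ JS (Rf v) := fun x => hJ ▸ mem_univ x
  obtain ⟨q1, q2, q3, n12, n13, n23, e1, e2, e3, hq3⟩ := three_fix' hd hcop hdeg hup hJ y
  obtain ⟨L, G, φ, K, hch, -, f0, f1, fi⟩ := ch_three (d := d) hd n12 n13 n23
  obtain ⟨hcop1, hdeg1, hφ⟩ := hch.conj v hcop hdeg
  refine ⟨L, G, φ, K, hch, ?_, ?_, ?_, ?_, ?_, ?_⟩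
  · intro h
    rw [← fi] at h
    exact hq3 (φ.injective h).symm
  · rw [← f0, hφ, e1]
  · rw [← f1, hφ, e2]
  · rw [← fi, hφ, e3]
  · exact fun h => hup (up_chart hd hch.cG hch.invL hch.invR (fun v h3 h4 => (hch.conj v h3 h4).2.2) hcop hdeg h)
  · rw [eq_univ_iff_forall]
    intro y
    obtain ⟨x, rfl⟩ := φ.surjective y
    intro h
    exact hJa x ((Pool.Agent.H76.SU.fs_conj hch.bil hφ x).1 h)

/-- the critical points are in the plane -/
theorem crit_pl (hd : 2 ≤ d) (hcop : IsCoprime (pol v.1) (pol v.2))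
    (hdeg : max (pol v.1).natDegree (pol v.2).natDegree = d) (hup : ¬ Up v) (hJ : JS (Rf v) = univ)
    (hi : Rf v OnePoint.infty = OnePoint.infty) {c : OnePoint ℂ} (hc : IsCrit (Rf v) c) :
    ∃ z : ℂ, c = (z : OnePoint ℂ) := by
  have hinf := not_pre hd hcop hdeg hup hc (hJ ▸ mem_univ c)
  have h1 : c ≠ OnePoint.infty := by
    intro h
    refine hinf 0 1 one_pos ?_
    show c = Rf v c
    rw [h, hi]
  obtain ⟨z, hz⟩ := OnePoint.ne_infty_iff_exists.1 h1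
  exact ⟨z, hz.symm⟩

/-- all data for Julia set = sphere -/
theorem all_s (hd : 2 ≤ d) (hcop : IsCoprime (pol v.1) (pol v.2))
    (hdeg : max (pol v.1).natDegree (pol v.2).natDegree = d) (hup : ¬ Up v) (hJ : JS (Rf v) = univ)
    (h0 : Rf v ((0 : ℂ) : OnePoint ℂ) = ((0 : ℂ) : OnePoint ℂ))
    (h1 : Rf v ((1 : ℂ) : OnePoint ℂ) = ((1 : ℂ) : OnePoint ℂ))
    (hi : Rf v OnePoint.infty = OnePoint.infty) {c : OnePoint ℂ} (hc : IsCrit (Rf v) c) :
    Geo d (pol v.1) (pol v.2) univ 1 ∧ ∀ c0 : ℂ, Cr (pol v.1) (pol v.2) c0 →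
      ∃ (δ1 R C : ℝ) (r K : ℂ → ℂ → ℂ) (Y : ℂ → ℂ), KD (pol v.1) (pol v.2) univ univ c0 δ1 R C KA r K Y := by
  obtain ⟨c1, rfl⟩ := crit_pl hd hcop hdeg hup hJ hi hc
  obtain ⟨L0, θ, hs⟩ := sp_of hd hcop hdeg hup hJ h0 h1 hi hc
  have hV : ∀ j ≤ 2 * d, ∃ V : ℂ → ℂ, VelP (pol v.1) (pol v.2) (X ^ j) V := fun j hj =>
    vel_s hd hcop hdeg hup hJ h0 h1 hi ((natDegree_X_pow_le j).trans hj)
  exact ⟨geo_s hd hcop hdeg hup hJ hs hV, fun c0 hc0 => kd_s hs hV c0 hc0⟩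

end Pool.Agent.H66.UP
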