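import Pool.Agent.H66.UP.KS3
import Pool.Agent.H66.UP.KI3
import Pool.Agent.H66.UP.KD

/-!
# Module [H66 UP KS4]: the kernel data for Julia set = sphere

`tri_s`: `K x - K y - t (K z - K y) = (KA x - KA y - t (KA z - KA y)) + ∑_j hh j w (V j x - V j y - t (V j z - V j y))`; `ki3_ka` for the first part, `TP univ (V j)` (constant `C_j(R)`) times `∫ ‖hh j‖` for the others (`|log (‖z - y‖ / ‖x - y‖)| = log (..)` since the quotient is at least `1`; `z ≠ y` follows from `x ≠ y`).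
`eta0`: `ww = (X - C c0) * w1` (`c0` is a root), `w1.eval c0 = (derivative ww).eval c0`; `η0 = - C (c0 (c0 - 1))⁻¹ * w1 * X * (X - 1)`; degree: `natDegree ww + 1 ≤ 2 d` (`ww_deg`, H1/PU/Idn). For `x ≠ c0`, `b x ≠ 0`: `dg x * KA x c0 = η0 x / b x ^ 2` (`KA x c0 = x (x - 1) / (c0 (c0 - 1) (c0 - x))`).
`kd_s`: `Y` = the velocity for `η0` (`velp_lin`). `Ys`: `Y (gg x) = dg x Y x + dg x KA x c0` (`x ≠ c0` as `dg x ≠ 0`). `Yc`: `velp_crit`; `η0 / b ^ 2 = dg * KA · c0` near `c ≠ c0` has the derivative `dg'(c) KA c c0` at `c` (`dg c = 0`); divide by `dg'(c) ≠ 0` (`sim_s`). `Yv`: `Y (gg c0) = η0 c0 / b c0 ^ 2 = - ww'(c0) / b c0 ^ 2`.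
`r x w = (x - 1) / w - x / (w - 1)`: `rq` is `ka_pf` (H1/PU/Ker) for `w ≠ 0, 1, x`; `δ1 = min ‖c0‖ ‖c0 - 1‖ > 0` because `0`, `1` are repelling fixed points (`h.rep`, `p = 1`), so not critical. `R`: the zeros of `ww` are finitely many. `qi` = `ka_int`; `Ki`: sum of integrable functions. `C` = the maximum of `1` and the constants.
-/

set_option autoImplicit false

open Filter Topology Polynomial Metric Set MeasureTheory

namespace Pool.Agent.H66.UP

open Pool.Agent.H61.TT Pool.Agent.H57.CP Pool.Agent.H3.NC Pool.Agent.H78.NS Pool.Agent.H31.NS Pool.Agent.H18.UP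
open Pool.Agent.H1.PU (KA)

variable {d : ℕ} {a b : Polynomial ℂ}

private theorem lg_nonneg {x y z : ℂ} (hxy : x ≠ y) (hle : ‖x - y‖ ≤ ‖z - y‖) :
    0 ≤ Real.log (‖z - y‖ / ‖x - y‖) := by
  have hp : 0 < ‖x - y‖ := norm_pos_iff.2 (sub_ne_zero.2 hxy)
  exact Real.log_nonneg ((one_le_div hp).2 hle)

private theorem ne_of_le {x y z : ℂ} (hxy : x ≠ y) (hle : ‖x - y‖ ≤ ‖z - y‖) : z ≠ y := by
  have hp : 0 < ‖x - y‖ := norm_pos_iff.2 (sub_ne_zero.2 hxy)
  exact sub_ne_zero.1 (norm_pos_iff.1 (hp.trans_le hle))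

/-- the three point estimate without the absolute value -/
private theorem tp_le {V : ℂ → ℂ} (hV : TP univ V) (R : ℝ) : ∃ C : ℝ, 0 ≤ C ∧ ∀ x y z : ℂ,
    ‖x‖ ≤ R → ‖y‖ ≤ R → ‖z‖ ≤ R → x ≠ y → ‖x - y‖ ≤ ‖z - y‖ →
      ‖V x - V y - (x - y) / (z - y) * (V z - V y)‖ ≤
        C * (‖x - y‖ * (1 + Real.log (‖z - y‖ / ‖x - y‖))) := by
  obtain ⟨C, hC, h⟩ := hV R
  refine ⟨C, hC, fun x y z hx hy hz hxy hle => ?_⟩
  have h1 := h x (mem_univ _) y (mem_univ _) z (mem_univ _) hx hy hz hxy (ne_of_le hxy hle)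
  rw [abs_of_nonneg (lg_nonneg hxy hle), mul_assoc] at h1
  exact h1

theorem tri_s {N : ℕ} {hh V : ℕ → ℂ → ℂ} (hi : ∀ j, Integrable (hh j)) (hV : ∀ j ≤ N, TP univ (V j)) (R : ℝ) :
    ∃ C : ℝ, 0 ≤ C ∧ ∀ x y z : ℂ, ‖x‖ ≤ R → ‖y‖ ≤ R → ‖z‖ ≤ R → x ≠ y → ‖x - y‖ ≤ ‖z - y‖ →
    ∫⁻ w : ℂ, ‖KV N hh V x w - KV N hh V y w - (x - y) / (z - y) * (KV N hh V z w - KV N hh V y w)‖ₑ ≤
      ENNReal.ofReal (C * ‖x - y‖ * (1 + Real.log (‖z - y‖ / ‖x - y‖))) := by
  obtain ⟨C0, hC0, h0⟩ := ki3_ka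
  have h1 : ∀ j, ∃ C : ℝ, 0 ≤ C ∧ (j ≤ N → ∀ x y z : ℂ,
      ‖x‖ ≤ R → ‖y‖ ≤ R → ‖z‖ ≤ R → x ≠ y → ‖x - y‖ ≤ ‖z - y‖ →
        ‖V j x - V j y - (x - y) / (z - y) * (V j z - V j y)‖ ≤
          C * (‖x - y‖ * (1 + Real.log (‖z - y‖ / ‖x - y‖)))) := by
    intro j
    by_cases hj : j ≤ N
    · obtain ⟨C, hC, h⟩ := tp_le (hV j hj) R
      exact ⟨C, hC, fun _ => h⟩
    · exact ⟨0, le_rfl, fun hc => absurd hc hj⟩
  choose Cj hCj h1 using h1
  have hI : ∀ j, 0 ≤ ∫ w, ‖hh j w‖ := fun j => integral_nonneg fun w => norm_nonneg _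
  refine ⟨C0 + ∑ j ∈ Finset.range (N + 1), (∫ w, ‖hh j w‖) * Cj j, ?_, fun x y z hx hy hz hxy hle => ?_⟩
  · exact add_nonneg hC0.le (Finset.sum_nonneg fun j _ => mul_nonneg (hI j) (hCj j))
  obtain ⟨T, hT⟩ : ∃ T : ℕ → ℂ, T = fun j => V j x - V j y - (x - y) / (z - y) * (V j z - V j y) := ⟨_, rfl⟩
  obtain ⟨L, hL⟩ : ∃ L, L = ‖x - y‖ * (1 + Real.log (‖z - y‖ / ‖x - y‖)) := ⟨_, rfl⟩
  have hL0 : 0 ≤ L := by
    rw [hL]
    have := lg_nonneg hxy hle
    positivity
  have e : ∀ w, KV N hh V x w - KV N hh V y w - (x - y) / (z - y) * (KV N hh V z w - KV N hh V y w) =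
      (KA x w - KA y w - (x - y) / (z - y) * (KA z w - KA y w)) +
        ∑ j ∈ Finset.range (N + 1), hh j w * T j := by
    intro w
    have e1 : ∑ j ∈ Finset.range (N + 1), hh j w * T j =
        ∑ j ∈ Finset.range (N + 1), hh j w * V j x - ∑ j ∈ Finset.range (N + 1), hh j w * V j y -
          (x - y) / (z - y) * (∑ j ∈ Finset.range (N + 1), hh j w * V j z -
            ∑ j ∈ Finset.range (N + 1), hh j w * V j y) := by
      rw [← Finset.sum_sub_distrib, ← Finset.sum_sub_distrib, Finset.mul_sum, ← Finset.sum_sub_distrib]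
      refine Finset.sum_congr rfl fun j _ => ?_
      rw [hT]
      ring
    rw [e1]
    unfold KV
    ring
  have hm : ∀ j, AEMeasurable (fun w => ‖hh j w * T j‖ₑ) volume := fun j =>
    ((hi j).aestronglyMeasurable.mul_const (T j)).enorm
  have h2 : ∀ j ∈ Finset.range (N + 1), ∫⁻ w, ‖hh j w * T j‖ₑ ≤
      ENNReal.ofReal ((∫ w, ‖hh j w‖) * Cj j * L) := by
    intro j hj
    have hj' : j ≤ N := by
      rw [Finset.mem_range] at hj
      omega
    have h3 := h1 j hj' x y z hx hy hz hxy hle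
    rw [← hL] at h3
    have h4 : ∫⁻ w, ‖hh j w * T j‖ₑ = ENNReal.ofReal (∫ w, ‖hh j w * T j‖) := by
      rw [ofReal_integral_norm_eq_lintegral_enorm ((hi j).mul_const (T j))]
    rw [h4]
    refine ENNReal.ofReal_le_ofReal ?_
    have h5 : ∫ w, ‖hh j w * T j‖ = (∫ w, ‖hh j w‖) * ‖T j‖ := by
      rw [← integral_mul_const]
      exact integral_congr_ae (Eventually.of_forall fun w => norm_mul _ _)
    rw [h5, mul_assoc]
    have h6 : ‖T j‖ ≤ Cj j * L := by
      rw [hT]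
      exact h3
    exact mul_le_mul_of_nonneg_left h6 (hI j)
  have h3 : ∫⁻ w : ℂ, ‖KV N hh V x w - KV N hh V y w - (x - y) / (z - y) * (KV N hh V z w - KV N hh V y w)‖ₑ ≤
      ∫⁻ w : ℂ, (‖KA x w - KA y w - (x - y) / (z - y) * (KA z w - KA y w)‖ₑ +
        ∑ j ∈ Finset.range (N + 1), ‖hh j w * T j‖ₑ) := by
    refine lintegral_mono fun w => ?_
    show ‖_‖ₑ ≤ _
    rw [e w]
    exact (enorm_add_le _ _).trans (add_le_add le_rfl (enorm_sum_le _ _))
  refine h3.trans ?_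
  rw [lintegral_add_right' _ (Finset.aemeasurable_fun_sum _ fun j _ => hm j),
    lintegral_finsetSum' _ fun j _ => hm j]
  refine (add_le_add (h0 x y z hxy hle) (Finset.sum_le_sum h2)).trans ?_
  rw [← ENNReal.ofReal_sum_of_nonneg fun j _ => mul_nonneg (mul_nonneg (hI j) (hCj j)) hL0,
    ← ENNReal.ofReal_add _ (Finset.sum_nonneg fun j _ => mul_nonneg (mul_nonneg (hI j) (hCj j)) hL0)]
  · refine ENNReal.ofReal_le_ofReal (le_of_eq ?_)
    rw [mul_assoc, mul_assoc, ← hL, add_mul, Finset.sum_mul]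
  · rw [mul_assoc, ← hL]
    exact mul_nonneg hC0.le hL0

theorem eta0 {L0 θ : ℝ} (h : SP d a b L0 θ) {c0 : ℂ} (hc : Cr a b c0) (h0 : c0 ≠ 0) (h1 : c0 ≠ 1) :
    ∃ η : Polynomial ℂ, η.natDegree ≤ 2 * d ∧ (∀ x : ℂ, x ≠ c0 → b.eval x ≠ 0 → η.eval x / b.eval x ^ 2 = dg a b x * KA x c0) ∧
      η.eval c0 / b.eval c0 ^ 2 = - ((derivative (ww a b)).eval c0 / b.eval c0 ^ 2) := by
  obtain ⟨w1, hw⟩ := dvd_iff_isRoot.2 (show IsRoot (ww a b) c0 from hc.2)
  have hd1 := Pool.Agent.H1.PU.ww_deg h.rt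
  have h1' : c0 - 1 ≠ 0 := sub_ne_zero.2 h1
  refine ⟨C (-(c0 * (c0 - 1))⁻¹) * (w1 * (X * (X - 1))), ?_, fun x hx hb => ?_, ?_⟩
  · by_cases hz : w1 = 0
    · rw [hz, zero_mul, mul_zero, natDegree_zero]
      exact Nat.zero_le _
    · have h2 : (ww a b).natDegree = 1 + w1.natDegree := by
        rw [hw, natDegree_mul (X_sub_C_ne_zero c0) hz, natDegree_X_sub_C]
      have h3 : (X * (X - 1) : Polynomial ℂ).natDegree ≤ 2 := by compute_degree
      refine (natDegree_C_mul_le _ _).trans (natDegree_mul_le.trans ?_)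
      omega
  · have hx0 : c0 - x ≠ 0 := sub_ne_zero.2 (Ne.symm hx)
    unfold dg KA
    rw [hw]
    simp only [eval_mul, eval_C, eval_sub, eval_X, eval_one]
    field_simp
    ring
  · have h2 : (derivative (ww a b)).eval c0 = w1.eval c0 := by
      rw [hw, derivative_mul]
      simp
    rw [h2]
    simp only [eval_mul, eval_C, eval_sub, eval_X, eval_one]
    have hb := hc.1
    field_simp

private theorem crit_ne {L0 θ : ℝ} (h : SP d a b L0 θ) {c0 : ℂ} (hc : Cr a b c0) : c0 ≠ 0 ∧ c0 ≠ 1 := by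
  have hz : dg a b c0 = 0 := by
    unfold dg
    rw [hc.2, zero_div]
  have e : ∀ z : ℂ, tD a b 1 z = dg a b z := fun z => by
    unfold tD
    rw [Finset.prod_range_one]
    rfl
  constructor
  · rintro rfl
    have h2 := h.rep 0 1 one_pos (by
      rw [Function.iterate_one, Pool.Agent.H44.Fatou.rat_coe_of_ne h.b0]
      exact congrArg OnePoint.some h.f0)
    rw [e, hz, norm_zero] at h2
    linarith
  · rintro rfl
    have h2 := h.rep 1 1 one_pos (by
      rw [Function.iterate_one, Pool.Agent.H44.Fatou.rat_coe_of_ne h.b1]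
      exact congrArg OnePoint.some h.f1)
    rw [e, hz, norm_zero] at h2
    linarith

/-- the derivative of the vector field at a second critical point -/
private theorem der_e {c0 c : ℂ} (hc : Cr a b c) (hne : c ≠ c0) (η : Polynomial ℂ)
    (h2 : ∀ x : ℂ, x ≠ c0 → b.eval x ≠ 0 → η.eval x / b.eval x ^ 2 = dg a b x * KA x c0) :
    deriv (fun z => η.eval z / b.eval z ^ 2) c = (derivative (ww a b)).eval c / b.eval c ^ 2 * KA c c0 := by
  have hb := hc.1
  have h3 : (fun z => η.eval z / b.eval z ^ 2) =ᶠ[𝓝 c] fun z => dg a b z * KA z c0 := by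
    have h4 : ∀ᶠ z in 𝓝 c, z ≠ c0 := isOpen_ne.mem_nhds hne
    have h5 : ∀ᶠ z in 𝓝 c, b.eval z ≠ 0 := (b.continuous.continuousAt).eventually_ne hb
    filter_upwards [h4, h5] with z h6 h7
    exact h2 z h6 h7
  rw [h3.deriv_eq]
  have hd : HasDerivAt (dg a b) ((derivative (ww a b)).eval c / b.eval c ^ 2) c := by
    have h4 := ((ww a b).hasDerivAt c).div ((b.hasDerivAt c).pow 2) (pow_ne_zero 2 hb)
    rw [hc.2] at h4
    have e : ((fun x => eval x b) ^ 2) c = b.eval c ^ 2 := rfl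
    rw [e] at h4
    refine h4.congr_deriv ?_
    field_simp
    ring
  have hk : DifferentiableAt ℂ (fun z => KA z c0) c := by
    unfold KA
    have h4 : c0 - c ≠ 0 := sub_ne_zero.2 (Ne.symm hne)
    by_cases h5 : c0 * (c0 - 1) = 0
    · have h6 : (fun z : ℂ => z * (z - 1) / (c0 * (c0 - 1) * (c0 - z))) = fun _ => 0 := by
        funext z
        rw [h5, zero_mul, div_zero]
      rw [h6]
      exact differentiableAt_const 0
    · exact DifferentiableAt.div (by fun_prop) (by fun_prop) (mul_ne_zero h5 h4)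
  have h4 := (hd.mul hk.hasDerivAt).deriv
  have h5 : dg a b c = 0 := by
    unfold dg
    rw [hc.2, zero_div]
  rw [h5, zero_mul, add_zero] at h4
  exact h4

theorem kd_s {L0 θ : ℝ} (h : SP d a b L0 θ) (hV : ∀ j ≤ 2 * d, ∃ V : ℂ → ℂ, VelP a b (X ^ j) V) :
    ∀ c0 : ℂ, Cr a b c0 → ∃ (δ1 R C : ℝ) (r K : ℂ → ℂ → ℂ) (Y : ℂ → ℂ), KD a b univ univ c0 δ1 R C KA r K Y := by
  intro c0 hc0
  have hd := h.rt.hd
  obtain ⟨h0, h1⟩ := crit_ne h hc0
  obtain ⟨V, hV⟩ : ∃ V : ℕ → ℂ → ℂ, ∀ j ≤ 2 * d, VelP a b (X ^ j) (V j) := by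
    have h2 : ∀ j, ∃ V : ℂ → ℂ, j ≤ 2 * d → VelP a b (X ^ j) V := by
      intro j
      by_cases hj : j ≤ 2 * d
      · obtain ⟨V, h3⟩ := hV j hj
        exact ⟨V, fun _ => h3⟩
      · exact ⟨0, fun hc => absurd hc hj⟩
    choose V hV using h2
    exact ⟨V, hV⟩
  obtain ⟨hh, hi, hl⟩ := hco h
  obtain ⟨η, hη, hη1, hη2⟩ := eta0 h hc0 h0 h1
  have hY := velp_lin hV hη
  obtain ⟨Y, hYd⟩ : ∃ Y : ℂ → ℂ, Y = fun x => ∑ j ∈ Finset.range (2 * d + 1), η.coeff j * V j x := ⟨_, rfl⟩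
  rw [← hYd] at hY
  obtain ⟨R, hR⟩ : ∃ R : ℝ, R = ∑ c ∈ (ww a b).roots.toFinset, ‖c‖ + 1 := ⟨_, rfl⟩
  obtain ⟨C1, hC1, hT⟩ := tri_s hi (fun j hj => (hV j hj).2.2.1) R
  obtain ⟨C2, hC2, hYT⟩ := tp_le hY.2.2.1 R
  obtain ⟨C3, hC3⟩ := (isCompact_closedBall (0 : ℂ) R).exists_bound_of_continuousOn hY.1.continuousOn
  have hCa : C1 ≤ 1 + C1 + C2 + |C3| := by
    have := abs_nonneg C3
    linarith
  have hCb : C2 ≤ 1 + C1 + C2 + |C3| := by
    have := abs_nonneg C3
    linarith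
  have hball : ∀ w ∈ ball c0 (min ‖c0‖ ‖c0 - 1‖), w ≠ 0 ∧ w ≠ 1 := by
    intro w hw
    rw [mem_ball, dist_comm, dist_eq_norm] at hw
    refine ⟨?_, ?_⟩
    · rintro rfl
      rw [sub_zero] at hw
      exact absurd (hw.trans_le (min_le_left _ _)) (lt_irrefl _)
    · rintro rfl
      exact absurd (hw.trans_le (min_le_right _ _)) (lt_irrefl _)
  refine ⟨min ‖c0‖ ‖c0 - 1‖, R, 1 + C1 + C2 + |C3|, fun x w => (x - 1) / w - x / (w - 1),
    KV (2 * d) hh V, Y, ?_⟩
  refine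
    { hδ := lt_min (norm_pos_iff.2 h0) (norm_pos_iff.2 (sub_ne_zero.2 h1))
      hC := by
        have := abs_nonneg C3
        linarith
      cJ := mem_univ _
      c0c := hc0
      crR := fun c _ hc => by
        rw [hR]
        have h2 : c ∈ (ww a b).roots.toFinset := by
          rw [Multiset.mem_toFinset, mem_roots (ww_ne h.rt)]
          exact hc.2
        have h3 := Finset.single_le_sum (f := fun c : ℂ => ‖c‖) (fun c _ => norm_nonneg c) h2
        linarith
      Zm := MeasurableSet.univ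
      Zp := subset_univ _
      Zb := subset_univ _
      rq := fun x _ w hw hx => by
        obtain ⟨hw0, hw1⟩ := hball w hw
        rw [Pool.Agent.H1.PU.ka_pf hw0 hw1 hx]
        ring
      rh := fun x _ => by
        refine DifferentiableOn.sub ?_ ?_
        · exact DifferentiableOn.div (by fun_prop) (by fun_prop) fun w hw => (hball w hw).1
        · exact DifferentiableOn.div (by fun_prop) (by fun_prop) fun w hw =>
            sub_ne_zero.2 (hball w hw).2
      qi := fun x _ => (Pool.Agent.H1.PU.ka_int x).integrableOn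
      Ki := fun x _ => by
        refine Integrable.integrableOn ?_
        exact (Pool.Agent.H1.PU.ka_int x).add (integrable_finsetSum _ fun j _ => (hi j).mul_const _)
      step := fun x _ hb hx => (step_s h hV hl hb hx).mono fun w hw _ => hw
      crit := fun c _ hc => (crit_s h hV hl hc (sim_s (by omega) hV hc)).mono fun w hw _ => hw
      val0 := fun c _ hc => (val0_s h hV hl hc).mono fun w hw _ => hw
      tri := fun x _ y _ z _ hx hy hz hxy hle => by
        rw [Measure.restrict_univ]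
        refine (hT x y z hx hy hz hxy hle).trans (ENNReal.ofReal_le_ofReal ?_)
        rw [mul_assoc, mul_assoc]
        refine mul_le_mul_of_nonneg_right hCa ?_
        have := lg_nonneg hxy hle
        positivity
      Yb := fun x _ hx => by
        have h2 := hC3 x (by rw [mem_closedBall, dist_zero_right]; exact hx)
        have h3 := le_abs_self C3
        linarith
      Ys := fun x _ hb hx => by
        have hne : x ≠ c0 := by
          rintro rfl
          apply hx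
          unfold dg
          rw [hc0.2, zero_div]
        rw [hY.2.1 x hb, hη1 x hne hb]
        field_simp
        ring
      Yc := fun c _ hc hne => by
        have h2 := velp_crit hY hc
        rw [der_e hc hne η hη1, ← mul_add] at h2
        have h3 : (derivative (ww a b)).eval c / b.eval c ^ 2 ≠ 0 :=
          div_ne_zero (sim_s (by omega) hV hc) (pow_ne_zero 2 hc.1)
        exact eq_neg_of_add_eq_zero_left ((mul_eq_zero.1 h2).resolve_left h3)
      Yv := by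
        rw [hY.2.1 c0 hc0.1, hη2]
        unfold dg
        rw [hc0.2, zero_div, zero_mul, zero_add]
      Yt := fun x _ y _ z _ hx hy hz hxy hle => by
        refine (hYT x y z hx hy hz hxy hle).trans ?_
        rw [mul_assoc]
        refine mul_le_mul_of_nonneg_right hCb ?_
        have := lg_nonneg hxy hle
        positivity }

end Pool.Agent.H66.UP
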