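import Pool.Agent.H66.UP.VS5
import Pool.Agent.H18.UP.Defs

/-!
# Module [H66 UP KS1]: velocities on the sphere: linearity, critical points

PROOFS. `velp_lin`: all four properties of `VelP` are linear (`TP`: the left side is linear in `V`, sum of the constants times `‖η.coeff j‖`); the equation: `∑_(j ≤ N) η.coeff j x ^ j = η.eval x` (`eval_eq_sum_range'`).
`velp_crit`: `E z = η z / b z ^ 2`. For `z → c`, `z ≠ c`: `V (g z) - V (g c) = g'(z) V z + E z - E c` (`g'(c) = 0`). `‖g z - g c‖ ≤ C1 ‖z - c‖ ^ 2` near `c` (`g'(c) = 0`, `g` analytic), and by `TP univ V` with a third point `z3` at distance `1` from `g c` (`z3 = g c + 1`, `R = ‖g c‖ + 2`):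
`‖V x - V y‖ ≤ C2 ‖x - y‖ (1 + |log ‖x - y‖|)` for `x, y` near `g c`, so `‖V (g z) - V (g c)‖ / ‖z - c‖ ≤ C3 ‖z - c‖ (1 + |log (C1 ‖z - c‖^2)|) → 0` (monotonicity of `t (1 + |log t|)` for small `t`, or `t (1 + |log t|) ≤ 3 √t`-type bound for `t ≤ 1`: `t |log t| ≤ √t`... ; it is enough to use `t (1 + |log t|) ≤ 4 t ^ (3/4)`).
Divide by `z - c` and let `z → c`: `0 = g''(c) V c + E'(c)`, `g''(c) = (derivative (ww a b)).eval c / b.eval c ^ 2` (`dg = ww / b ^ 2`, `ww c = 0`).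
`sim_s`: `η = X - C c`, `V` from `velp_lin` (`N = 2 d ≥ 1`): if `ww'(c) = 0` then `velp_crit` gives `deriv E c = 0`, but `deriv E c = 1 / b c ^ 2 ≠ 0`.
-/

set_option autoImplicit false

open Filter Topology Polynomial Metric Set MeasureTheory

namespace Pool.Agent.H66.UP

open Pool.Agent.H61.TT Pool.Agent.H57.CP Pool.Agent.H18.UP

variable {a b : Polynomial ℂ}

theorem velp_lin {N : ℕ} {V : ℕ → ℂ → ℂ} (hV : ∀ j ≤ N, VelP a b (X ^ j) (V j)) {η : Polynomial ℂ} (hη : η.natDegree ≤ N) :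
    VelP a b η (fun x => ∑ j ∈ Finset.range (N + 1), η.coeff j * V j x) := by
  have hj : ∀ j ∈ Finset.range (N + 1), j ≤ N := fun j h => Nat.lt_succ_iff.1 (Finset.mem_range.1 h)
  refine ⟨?_, ?_, ?_, ?_⟩
  · exact continuous_finsetSum _ fun j h => continuous_const.mul (hV j (hj j h)).1
  · intro z hz
    have h1 : η.eval z = ∑ j ∈ Finset.range (N + 1), η.coeff j * z ^ j :=
      eval_eq_sum_range' (by omega) z
    rw [h1, Finset.mul_sum, Finset.sum_div, ← Finset.sum_add_distrib]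
    refine Finset.sum_congr rfl fun j h => ?_
    rw [(hV j (hj j h)).2.1 z hz, eval_pow, eval_X]
    ring
  · intro R
    have h1 : ∀ j, ∃ C : ℝ, 0 ≤ C ∧ (j ≤ N → ∀ x y z : ℂ, ‖x‖ ≤ R → ‖y‖ ≤ R → ‖z‖ ≤ R →
        x ≠ y → z ≠ y → ‖V j x - V j y - (x - y) / (z - y) * (V j z - V j y)‖ ≤
          C * ‖x - y‖ * (1 + |Real.log (‖z - y‖ / ‖x - y‖)|)) := by
      intro j
      by_cases hjN : j ≤ N
      · obtain ⟨C, hC, h⟩ := (hV j hjN).2.2.1 R
        exact ⟨C, hC, fun _ x y z => h x (mem_univ _) y (mem_univ _) z (mem_univ _)⟩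
      · exact ⟨0, le_rfl, fun h => absurd h hjN⟩
    choose C hC h using h1
    refine ⟨∑ j ∈ Finset.range (N + 1), ‖η.coeff j‖ * C j,
      Finset.sum_nonneg fun j _ => mul_nonneg (norm_nonneg _) (hC j), ?_⟩
    intro x _ y _ z _ hx hy hz hxy hzy
    have e : (∑ j ∈ Finset.range (N + 1), η.coeff j * V j x) - (∑ j ∈ Finset.range (N + 1), η.coeff j * V j y) -
        (x - y) / (z - y) * ((∑ j ∈ Finset.range (N + 1), η.coeff j * V j z) -
          (∑ j ∈ Finset.range (N + 1), η.coeff j * V j y)) = ∑ j ∈ Finset.range (N + 1),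
          η.coeff j * (V j x - V j y - (x - y) / (z - y) * (V j z - V j y)) := by
      rw [← Finset.sum_sub_distrib, ← Finset.sum_sub_distrib, Finset.mul_sum, ← Finset.sum_sub_distrib]
      exact Finset.sum_congr rfl fun j _ => by ring
    show ‖(∑ j ∈ Finset.range (N + 1), η.coeff j * V j x) - (∑ j ∈ Finset.range (N + 1), η.coeff j * V j y) -
        (x - y) / (z - y) * ((∑ j ∈ Finset.range (N + 1), η.coeff j * V j z) -
          (∑ j ∈ Finset.range (N + 1), η.coeff j * V j y))‖ ≤ _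
    rw [e, mul_assoc, Finset.sum_mul]
    refine (norm_sum_le _ _).trans (Finset.sum_le_sum fun j hjm => ?_)
    rw [norm_mul, mul_assoc, ← mul_assoc (C j)]
    exact mul_le_mul_of_nonneg_left (h j (hj j hjm) x y z hx hy hz hxy hzy) (norm_nonneg _)
  · have h1 : ∀ j, ∃ C : ℝ, j ≤ N → ∀ z : ℂ, ‖V j z‖ ≤ C * (1 + ‖z‖ ^ 2) := by
      intro j
      by_cases hjN : j ≤ N
      · obtain ⟨C, hC⟩ := (hV j hjN).2.2.2
        exact ⟨C, fun _ => hC⟩
      · exact ⟨0, fun h => absurd h hjN⟩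
    choose C hC using h1
    refine ⟨∑ j ∈ Finset.range (N + 1), ‖η.coeff j‖ * C j, fun z => ?_⟩
    rw [Finset.sum_mul]
    refine (norm_sum_le _ _).trans (Finset.sum_le_sum fun j hjm => ?_)
    rw [norm_mul, mul_assoc]
    exact mul_le_mul_of_nonneg_left (hC j (hj j hjm) z) (norm_nonneg _)

/-- `g` has a double point at a critical point -/
private theorem ks_two {c : ℂ} (hc : Cr a b c) : ∃ C1 : ℝ, 0 ≤ C1 ∧
    ∀ᶠ z in 𝓝 c, ‖gg a b z - gg a b c‖ ≤ C1 * ‖z - c‖ ^ 2 := by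
  obtain ⟨hb, hw⟩ := hc
  have hroot : (C (b.eval c) * a - C (a.eval c) * b).IsRoot c := by
    simp only [IsRoot, eval_sub, eval_mul, eval_C]
    ring
  obtain ⟨q, hq⟩ := dvd_iff_isRoot.2 hroot
  have hq0 : q.IsRoot c := by
    have h1 := congrArg (fun p => (derivative p).eval c) hq
    simp only [derivative_sub, derivative_mul, derivative_C, derivative_X, eval_sub, eval_mul, eval_add, eval_C,
      eval_X, zero_mul, zero_add, sub_zero, sub_self, one_mul, add_zero] at h1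
    rw [IsRoot, ← h1]
    have h2 : (ww a b).eval c = (derivative a).eval c * b.eval c - a.eval c * (derivative b).eval c := by
      simp [ww]
    rw [h2] at hw
    linear_combination hw
  obtain ⟨s, hs⟩ := dvd_iff_isRoot.2 hq0
  have hcont : ContinuousAt (fun z => ‖s.eval z / (b.eval z * b.eval c)‖) c :=
    (s.continuous.continuousAt.div (b.continuous.continuousAt.mul continuousAt_const)
      (mul_ne_zero hb hb)).norm
  refine ⟨‖s.eval c / (b.eval c * b.eval c)‖ + 1, by positivity, ?_⟩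
  have hbz : ∀ᶠ z in 𝓝 c, b.eval z ≠ 0 := b.continuous.continuousAt.eventually_ne hb
  filter_upwards [hbz, hcont.eventually_lt continuousAt_const
    (show ‖s.eval c / (b.eval c * b.eval c)‖ < ‖s.eval c / (b.eval c * b.eval c)‖ + 1 by linarith)] with z hz1 hz2
  have h1 := congrArg (fun p => p.eval z) hq
  rw [hs] at h1
  simp only [eval_sub, eval_mul, eval_C, eval_X] at h1
  have e : gg a b z - gg a b c = s.eval z / (b.eval z * b.eval c) * (z - c) ^ 2 := by
    rw [gg, gg]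
    field_simp
    linear_combination h1
  rw [e, norm_mul, norm_pow]
  exact mul_le_mul_of_nonneg_right hz2.le (by positivity)

private theorem ks_log {t : ℝ} (h0 : 0 < t) (h1 : t ≤ 1) : t * (1 + |Real.log t|) ≤ 5 * t ^ (3 / 4 : ℝ) := by
  have h2 := Real.abs_log_mul_self_rpow_lt t (1 / 4) h0 h1 (by norm_num)
  have h3 : t = t ^ (3 / 4 : ℝ) * t ^ (1 / 4 : ℝ) := by
    rw [← Real.rpow_add h0]
    norm_num
  have h4 : t ^ (1 / 4 : ℝ) ≤ 1 := Real.rpow_le_one h0.le h1 (by norm_num)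
  have h5 : 0 < t ^ (1 / 4 : ℝ) := Real.rpow_pos_of_pos h0 _
  have h6 : 0 < t ^ (3 / 4 : ℝ) := Real.rpow_pos_of_pos h0 _
  rw [abs_mul, abs_of_pos h5] at h2
  have h7 : t * (1 + |Real.log t|) = t ^ (3 / 4 : ℝ) * (t ^ (1 / 4 : ℝ) + |Real.log t| * t ^ (1 / 4 : ℝ)) := by
    nth_rewrite 1 [h3]
    ring
  rw [h7, mul_comm (5 : ℝ)]
  refine mul_le_mul_of_nonneg_left ?_ h6.le
  norm_num at h2
  linarith

private theorem ks_der0 {η : Polynomial ℂ} {V : ℂ → ℂ} (hV : VelP a b η V) {c : ℂ} (hc : Cr a b c) :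
    HasDerivAt (fun z => V (gg a b z)) 0 c := by
  obtain ⟨C1, hC1, h1⟩ := ks_two hc
  obtain ⟨B, hB⟩ := hV.2.2.2
  obtain ⟨C, hC, hl⟩ := tp_ll dense_univ hV.2.2.1 (fun x _ => hB x) (‖gg a b c‖ + 1)
  rw [hasDerivAt_iff_isLittleO, Asymptotics.isLittleO_iff]
  intro ε hε
  have hK : Tendsto (fun z : ℂ => C * (5 * (C1 ^ (3 / 4 : ℝ) * √‖z - c‖))) (𝓝 c) (𝓝 0) := by
    have h2 : Continuous (fun z : ℂ => C * (5 * (C1 ^ (3 / 4 : ℝ) * √‖z - c‖))) := by fun_prop
    have h3 := h2.tendsto c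
    simpa using h3
  have hK2 : Tendsto (fun z : ℂ => C1 * ‖z - c‖ ^ 2) (𝓝 c) (𝓝 0) := by
    have h2 : Continuous (fun z : ℂ => C1 * ‖z - c‖ ^ 2) := by fun_prop
    have h3 := h2.tendsto c
    simpa using h3
  filter_upwards [h1, hK.eventually_lt_const hε, hK2.eventually_lt_const one_pos] with z hz1 hz2 hz3
  rw [smul_zero, sub_zero]
  by_cases hg : gg a b z = gg a b c
  · rw [hg, sub_self, norm_zero]
    positivity
  · have ht : 0 < ‖gg a b z - gg a b c‖ := norm_pos_iff.2 (sub_ne_zero.2 hg)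
    have ht1 : ‖gg a b z - gg a b c‖ ≤ 1 := by linarith
    have hn : ‖gg a b z‖ ≤ ‖gg a b c‖ + 1 := by
      have h4 : gg a b z = gg a b c + (gg a b z - gg a b c) := by ring
      rw [h4]
      exact (norm_add_le _ _).trans (add_le_add le_rfl ht1)
    have h5 := hl _ (mem_univ _) _ (mem_univ _) hn (by linarith) hg
    rw [mul_assoc] at h5
    have h6 := ks_log ht ht1
    have h7 : ‖gg a b z - gg a b c‖ ^ (3 / 4 : ℝ) ≤ C1 ^ (3 / 4 : ℝ) * √‖z - c‖ * ‖z - c‖ := by
      refine (Real.rpow_le_rpow ht.le hz1 (by norm_num)).trans (le_of_eq ?_)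
      rw [Real.mul_rpow hC1 (by positivity), mul_assoc]
      congr 1
      have hu : 0 ≤ ‖z - c‖ := norm_nonneg _
      generalize ‖z - c‖ = u at hu
      rw [Real.sqrt_eq_rpow, ← Real.rpow_natCast, ← Real.rpow_mul hu]
      rcases hu.eq_or_lt with rfl | hu
      · rw [mul_zero, Real.zero_rpow (by norm_num)]
      · nth_rewrite 3 [← Real.rpow_one u]
        rw [← Real.rpow_add hu]
        norm_num
    calc ‖V (gg a b z) - V (gg a b c)‖ ≤ _ := h5
      _ ≤ C * (5 * (C1 ^ (3 / 4 : ℝ) * √‖z - c‖ * ‖z - c‖)) := by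
        refine mul_le_mul_of_nonneg_left (h6.trans ?_) hC
        exact mul_le_mul_of_nonneg_left h7 (by norm_num)
      _ = (C * (5 * (C1 ^ (3 / 4 : ℝ) * √‖z - c‖))) * ‖z - c‖ := by ring
      _ ≤ ε * ‖z - c‖ := mul_le_mul_of_nonneg_right hz2.le (norm_nonneg _)

/-- a product with a continuous function at a zero -/
private theorem ks_mul {f V : ℂ → ℂ} {c f' : ℂ} (hf : HasDerivAt f f' c) (h0 : f c = 0) (hV : ContinuousAt V c) :
    HasDerivAt (fun z => f z * V z) (f' * V c) c := by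
  rw [hasDerivAt_iff_tendsto_slope] at hf ⊢
  have h1 := hf.mul (hV.tendsto.mono_left nhdsWithin_le_nhds)
  refine h1.congr fun z => ?_
  simp only [slope_def_field, h0]
  ring

theorem velp_crit {η : Polynomial ℂ} {V : ℂ → ℂ} (hV : VelP a b η V) {c : ℂ} (hc : Cr a b c) :
    (derivative (ww a b)).eval c / b.eval c ^ 2 * V c + deriv (fun z => η.eval z / b.eval z ^ 2) c = 0 := by
  obtain ⟨hb, hw⟩ := hc
  have h0 := ks_der0 hV ⟨hb, hw⟩
  have hb2 : b.eval c ^ 2 ≠ 0 := pow_ne_zero _ hb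
  have h1 : HasDerivAt (fun z => Pool.Agent.H61.TT.dg a b z) ((derivative (ww a b)).eval c / b.eval c ^ 2) c := by
    have h2 := ((ww a b).hasDerivAt c).div ((b.hasDerivAt c).pow 2) hb2
    refine h2.congr_deriv ?_
    rw [hw]
    simp only [Pi.pow_apply]
    field_simp
    ring
  have h3 : DifferentiableAt ℂ (fun z => η.eval z / b.eval z ^ 2) c :=
    η.differentiableAt.div (b.differentiableAt.pow 2) hb2
  have h4 : Pool.Agent.H61.TT.dg a b c = 0 := by
    rw [Pool.Agent.H61.TT.dg, hw, zero_div]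
  have h5 := (ks_mul h1 h4 hV.1.continuousAt).add h3.hasDerivAt
  have h6 : (fun z => V (gg a b z)) =ᶠ[𝓝 c] (fun z => Pool.Agent.H61.TT.dg a b z * V z + η.eval z / b.eval z ^ 2) := by
    filter_upwards [b.continuous.continuousAt.eventually_ne hb] with z hz
    exact hV.2.1 z hz
  exact (h5.congr_of_eventuallyEq h6).unique h0

theorem sim_s {N : ℕ} (hN : 1 ≤ N) {V : ℕ → ℂ → ℂ} (hV : ∀ j ≤ N, VelP a b (X ^ j) (V j)) {c : ℂ} (hc : Cr a b c) :
    (derivative (ww a b)).eval c ≠ 0 := by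
  intro h0
  have h1 := velp_crit (velp_lin hV (η := X - C c) (by rw [natDegree_X_sub_C]; exact hN)) hc
  rw [h0, zero_div, zero_mul, zero_add] at h1
  have hb := hc.1
  have hb2 : b.eval c ^ 2 ≠ 0 := pow_ne_zero _ hb
  have h2 : HasDerivAt (fun z => (X - C c : Polynomial ℂ).eval z / b.eval z ^ 2) (1 / b.eval c ^ 2) c := by
    have h3 := ((X - C c : Polynomial ℂ).hasDerivAt c).div ((b.hasDerivAt c).pow 2) hb2
    refine h3.congr_deriv ?_
    simp only [Pi.pow_apply, derivative_sub, derivative_X, derivative_C, eval_sub, eval_one, eval_X, eval_C,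
      sub_self, sub_zero, zero_mul, one_mul]
    field_simp
  rw [h2.deriv] at h1
  exact (one_div_ne_zero hb2) h1

end Pool.Agent.H66.UP
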