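import Mathlib

/-!
# Module [H66 UP EXT]: extension of a function with the three point estimate

`TP L V`: the three point estimate for the points of `L`, locally uniform. `ext_tp`: if `L` is dense, `V` extends from `L` to a continuous function on the plane with the same estimates.
PROOF. `tp_ll` (log-Lipschitz, uniformly for the points of `L` in `closedBall 0 R`): choose (density) `p1, p2 ∈ L`, `‖p1‖ ≤ 1`, `‖p2 - 3‖ ≤ 1`, and apply the estimate with `R' = max R 4`: for `x ≠ y` in `L`, `‖x‖, ‖y‖ ≤ R`, one of `p1, p2` has distance at least `1 / 2` from `y` (`‖p1 - p2‖ ≥ 1`):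
with `z` this point `‖V x - V y‖ ≤ ‖x - y‖ / ‖z - y‖ * ‖V z - V y‖ + C ‖x - y‖ (1 + |log (‖z - y‖ / ‖x - y‖)|) ≤ C' ‖x - y‖ (1 + |log ‖x - y‖|)` (`‖z - y‖ ≤ 2 R'`; `V` is bounded on `L ∩ closedBall 0 R'`, `hB`).
`t (1 + |log t|) → 0` for `t → 0+` (`Real.tendsto_log_mul_self_nhdsGT_zero` or `Real.negMulLog` continuity), so for every `y0 ∈ ℂ` the map `V` restricted to `L` is Cauchy at `y0`: the limit `V' y0` along `𝓝[L] y0` exists (`cauchy_map_iff`, `CompleteSpace`). `V' = V` on `L` (continuity of `V` on `L` from the estimate), `V'` is continuous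
(`Dense.extend` / `IsDenseInducing.continuous_extend`, or by hand). The three point estimate for `V'`: for `x ≠ y`, `z ≠ y` take sequences in `L` (with `‖·‖ ≤ R + 1`, use the constant of `R + 1`) and pass to the limit (both sides are continuous at `(x, y, z)`: `Real.log` is continuous off `0`). The bound `‖V' x‖ ≤ B (1 + ‖x‖ ^ 2)` also passes to the limit.
-/

set_option autoImplicit false

open Filter Topology Metric Set

namespace Pool.Agent.H66.UP

/-- the three point estimate on `L` -/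
def TP (L : Set ℂ) (V : ℂ → ℂ) : Prop := ∀ R : ℝ, ∃ C : ℝ, 0 ≤ C ∧ ∀ x ∈ L, ∀ y ∈ L, ∀ z ∈ L, ‖x‖ ≤ R → ‖y‖ ≤ R → ‖z‖ ≤ R →
  x ≠ y → z ≠ y → ‖V x - V y - (x - y) / (z - y) * (V z - V y)‖ ≤ C * ‖x - y‖ * (1 + |Real.log (‖z - y‖ / ‖x - y‖)|)

theorem tp_ll {L : Set ℂ} (hL : Dense L) {V : ℂ → ℂ} (hV : TP L V) {B : ℝ} (hB : ∀ x ∈ L, ‖V x‖ ≤ B * (1 + ‖x‖ ^ 2))
    (R : ℝ) : ∃ C : ℝ, 0 ≤ C ∧ ∀ x ∈ L, ∀ y ∈ L, ‖x‖ ≤ R → ‖y‖ ≤ R → x ≠ y →
      ‖V x - V y‖ ≤ C * ‖x - y‖ * (1 + |Real.log ‖x - y‖|) := by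
  obtain ⟨p1, hp1, hp1'⟩ := hL.exists_dist_lt (0 : ℂ) (ε := 1) one_pos
  obtain ⟨p2, hp2, hp2'⟩ := hL.exists_dist_lt (3 : ℂ) (ε := 1) one_pos
  obtain ⟨R', hR'⟩ : ∃ R' : ℝ, R' = max R 4 := ⟨_, rfl⟩
  have hRR : R ≤ R' := by rw [hR']; exact le_max_left _ _
  have hR4 : 4 ≤ R' := by rw [hR']; exact le_max_right _ _
  obtain ⟨C, hC, h⟩ := hV R'
  have n1 : ‖p1‖ < 1 := by
    rw [dist_comm, dist_zero_right] at hp1'
    exact hp1'
  have n2 : ‖p2 - 3‖ < 1 := by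
    rw [dist_comm, dist_eq_norm] at hp2'
    exact hp2'
  have n3 : ‖p2‖ ≤ 4 := by
    have h1 : p2 = (p2 - 3) + 3 := by ring
    rw [h1]
    refine (norm_add_le _ _).trans ?_
    have h2 : ‖(3 : ℂ)‖ = 3 := by norm_num
    rw [h2]
    linarith
  have n4 : 1 < ‖p1 - p2‖ := by
    have h1 : (3 : ℂ) = p1 - (p2 - 3) - (p1 - p2) := by ring
    have h2 : ‖(3 : ℂ)‖ = 3 := by norm_num
    have h3 : ‖(3 : ℂ)‖ ≤ ‖p1‖ + ‖p2 - 3‖ + ‖p1 - p2‖ := by
      nth_rewrite 1 [h1]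
      exact (norm_sub_le _ _).trans (add_le_add (norm_sub_le _ _) le_rfl)
    rw [h2] at h3
    linarith
  have hbd : ∀ x ∈ L, ‖x‖ ≤ R' → ‖V x‖ ≤ |B| * (1 + R' ^ 2) := by
    intro x hx hxR
    refine (hB x hx).trans ?_
    refine mul_le_mul (le_abs_self B) ?_ (by positivity) (abs_nonneg B)
    have := norm_nonneg x
    nlinarith
  refine ⟨4 * |B| * (1 + R' ^ 2) + C * (1 + 2 * R'), by positivity, ?_⟩
  intro x hx y hy hxR hyR hxy
  obtain ⟨z, hz, hzR, hzy⟩ : ∃ z ∈ L, ‖z‖ ≤ R' ∧ 1 / 2 ≤ ‖z - y‖ := by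
    by_cases h1 : 1 / 2 ≤ ‖p1 - y‖
    · exact ⟨p1, hp1, by linarith, h1⟩
    · refine ⟨p2, hp2, by linarith, ?_⟩
      by_contra h2
      push Not at h1 h2
      have h3 : p1 - p2 = (p1 - y) - (p2 - y) := by ring
      have h4 : ‖p1 - p2‖ ≤ ‖p1 - y‖ + ‖p2 - y‖ := by
        rw [h3]
        exact norm_sub_le _ _
      linarith
  have hzy0 : z ≠ y := by
    rintro rfl
    rw [sub_self, norm_zero] at hzy
    linarith
  have h1 := h x hx y hy z hz (hxR.trans hRR) (hyR.trans hRR) hzR hxy hzy0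
  have hxy0 : 0 < ‖x - y‖ := norm_pos_iff.2 (sub_ne_zero.2 hxy)
  have hzyp : 0 < ‖z - y‖ := norm_pos_iff.2 (sub_ne_zero.2 hzy0)
  have h2 : ‖z - y‖ ≤ 2 * R' := (norm_sub_le _ _).trans (by linarith)
  have h3 : |Real.log ‖z - y‖| ≤ 2 * R' := by
    rw [abs_le]
    constructor
    · have h4 := Real.log_le_sub_one_of_pos (inv_pos.2 hzyp)
      rw [Real.log_inv] at h4
      have h5 : ‖z - y‖⁻¹ ≤ 2 := by
        rw [inv_le_comm₀ hzyp (by norm_num)]
        linarith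
      linarith
    · have h4 := Real.log_le_sub_one_of_pos hzyp
      linarith
  have h4 : |Real.log (‖z - y‖ / ‖x - y‖)| ≤ 2 * R' + |Real.log ‖x - y‖| := by
    rw [Real.log_div hzyp.ne' hxy0.ne']
    exact (abs_sub _ _).trans (add_le_add h3 le_rfl)
  have h5 : ‖(x - y) / (z - y) * (V z - V y)‖ ≤ 2 * ‖x - y‖ * (2 * (|B| * (1 + R' ^ 2))) := by
    rw [norm_mul, norm_div]
    refine mul_le_mul ?_ ?_ (norm_nonneg _) (by positivity)
    · rw [div_le_iff₀ hzyp]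
      nlinarith
    · refine (norm_sub_le _ _).trans ?_
      have := hbd z hz hzR
      have := hbd y hy (hyR.trans hRR)
      linarith
  have h6 : ‖V x - V y‖ ≤ ‖V x - V y - (x - y) / (z - y) * (V z - V y)‖ +
      ‖(x - y) / (z - y) * (V z - V y)‖ := by
    have h7 : V x - V y = (V x - V y - (x - y) / (z - y) * (V z - V y)) +
      (x - y) / (z - y) * (V z - V y) := by ring
    nth_rewrite 1 [h7]
    exact norm_add_le _ _
  have hl0 : 0 ≤ |Real.log ‖x - y‖| := abs_nonneg _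
  calc ‖V x - V y‖ ≤ _ := h6
    _ ≤ C * ‖x - y‖ * (1 + (2 * R' + |Real.log ‖x - y‖|)) +
        2 * ‖x - y‖ * (2 * (|B| * (1 + R' ^ 2))) := by
        refine add_le_add (h1.trans ?_) h5
        exact mul_le_mul_of_nonneg_left (by linarith) (by positivity)
    _ ≤ (4 * |B| * (1 + R' ^ 2) + C * (1 + 2 * R')) * ‖x - y‖ * (1 + |Real.log ‖x - y‖|) := by
        have e1 : 0 ≤ C * ‖x - y‖ * (2 * R' * |Real.log ‖x - y‖|) := by positivity
        have e2 : 0 ≤ 4 * |B| * (1 + R' ^ 2) * ‖x - y‖ * |Real.log ‖x - y‖| := by positivity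
        nlinarith

theorem ext_tp {L : Set ℂ} (hL : Dense L) {V : ℂ → ℂ} (hV : TP L V) {B : ℝ} (hB : ∀ x ∈ L, ‖V x‖ ≤ B * (1 + ‖x‖ ^ 2)) :
    ∃ V' : ℂ → ℂ, Continuous V' ∧ (∀ x ∈ L, V' x = V x) ∧ TP univ V' ∧ ∀ x, ‖V' x‖ ≤ B * (1 + ‖x‖ ^ 2) := by
  have hnb : ∀ y0 : ℂ, (𝓝[L] y0).NeBot := fun y0 => mem_closure_iff_nhdsWithin_neBot.1 (hL y0)
  have hlim : ∀ y0 : ℂ, ∃ l, Tendsto V (𝓝[L] y0) (𝓝 l) := by
    intro y0
    have := hnb y0
    obtain ⟨C, hC, h⟩ := tp_ll hL hV hB (‖y0‖ + 1)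
    rw [← cauchy_map_iff_exists_tendsto, cauchy_map_iff]
    refine ⟨this, ?_⟩
    rw [tendsto_uniformity_iff_dist_tendsto_zero]
    have hω : Continuous fun t : ℝ => C * (|t| + |t * Real.log t|) :=
      continuous_const.mul (continuous_abs.add (continuous_abs.comp Real.continuous_mul_log))
    have hω0 : Tendsto (fun q : ℂ × ℂ => C * (|‖q.1 - q.2‖| + |‖q.1 - q.2‖ * Real.log ‖q.1 - q.2‖|))
        (𝓝[L] y0 ×ˢ 𝓝[L] y0) (𝓝 0) := by
      have h1 : Tendsto (fun q : ℂ × ℂ => ‖q.1 - q.2‖) (𝓝[L] y0 ×ˢ 𝓝[L] y0) (𝓝 0) := by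
        have h2 : Tendsto (fun q : ℂ × ℂ => q.1 - q.2) (𝓝[L] y0 ×ˢ 𝓝[L] y0) (𝓝 (y0 - y0)) :=
          (tendsto_fst.mono_right nhdsWithin_le_nhds).sub (tendsto_snd.mono_right nhdsWithin_le_nhds)
        rw [sub_self] at h2
        have h3 := h2.norm
        rwa [norm_zero] at h3
      have h4 := (hω.tendsto 0).comp h1
      have h5 : C * (|(0 : ℝ)| + |(0 : ℝ) * Real.log 0|) = 0 := by simp
      rw [h5] at h4
      exact h4
    refine squeeze_zero' (Eventually.of_forall fun q => dist_nonneg) ?_ hω0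
    have hb : ∀ᶠ x in 𝓝[L] y0, x ∈ L ∧ ‖x‖ ≤ ‖y0‖ + 1 := by
      refine (eventually_mem_nhdsWithin (a := y0) (s := L)).and ?_
      apply mem_nhdsWithin_of_mem_nhds
      filter_upwards [Metric.ball_mem_nhds y0 one_pos] with x hx
      rw [Metric.mem_ball, dist_eq_norm] at hx
      have h1 : x = (x - y0) + y0 := by ring
      rw [h1]
      exact (norm_add_le _ _).trans (by linarith)
    filter_upwards [hb.prod_mk hb] with q hq
    obtain ⟨⟨h1, h2⟩, h3, h4⟩ := hq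
    rw [dist_eq_norm]
    by_cases h5 : q.1 = q.2
    · rw [h5, sub_self, norm_zero]
      positivity
    · refine (h _ h1 _ h3 h2 h4 h5).trans (le_of_eq ?_)
      rw [abs_mul, abs_of_nonneg (norm_nonneg (q.1 - q.2))]
      ring
  have hcont : Continuous (extendFrom L V) := continuous_extendFrom hL hlim
  have heq : ∀ x ∈ L, extendFrom L V x = V x := by
    intro x hx
    exact tendsto_nhds_unique ((tendsto_extendFrom (hlim x)).mono_left (pure_le_nhdsWithin hx))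
      (tendsto_pure_nhds V x)
  have hseq : ∀ x : ℂ, ∃ u : ℕ → ℂ, (∀ n, u n ∈ L) ∧ Tendsto u atTop (𝓝 x) := fun x =>
    mem_closure_iff_seq_limit.1 (hL x)
  refine ⟨extendFrom L V, hcont, heq, ?_, ?_⟩
  · intro R
    obtain ⟨C, hC, h⟩ := hV (R + 1)
    refine ⟨C, hC, ?_⟩
    intro x _ y _ z _ hx hy hz hxy hzy
    obtain ⟨a, haL, ha⟩ := hseq x
    obtain ⟨b, hbL, hb⟩ := hseq y
    obtain ⟨c, hcL, hc⟩ := hseq z
    have hbd : ∀ (u : ℕ → ℂ) (x : ℂ), ‖x‖ ≤ R → Tendsto u atTop (𝓝 x) → ∀ᶠ n in atTop, ‖u n‖ ≤ R + 1 := by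
      intro u x hx hu
      filter_upwards [hu.norm.eventually (gt_mem_nhds (show ‖x‖ < R + 1 by linarith))] with n hn
      exact hn.le
    have hyx0 : x - y ≠ 0 := sub_ne_zero.2 hxy
    have hzy0 : z - y ≠ 0 := sub_ne_zero.2 hzy
    have hab : Tendsto (fun n => a n - b n) atTop (𝓝 (x - y)) := ha.sub hb
    have hcb : Tendsto (fun n => c n - b n) atTop (𝓝 (z - y)) := hc.sub hb
    have hVa : Tendsto (fun n => extendFrom L V (a n)) atTop (𝓝 (extendFrom L V x)) :=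
      (hcont.tendsto x).comp ha
    have hVb : Tendsto (fun n => extendFrom L V (b n)) atTop (𝓝 (extendFrom L V y)) :=
      (hcont.tendsto y).comp hb
    have hVc : Tendsto (fun n => extendFrom L V (c n)) atTop (𝓝 (extendFrom L V z)) :=
      (hcont.tendsto z).comp hc
    have h1 := ((hVa.sub hVb).sub ((hab.div hcb hzy0).mul (hVc.sub hVb))).norm
    have h2 : Tendsto (fun n => C * ‖a n - b n‖ * (1 + |Real.log (‖c n - b n‖ / ‖a n - b n‖)|)) atTop
        (𝓝 (C * ‖x - y‖ * (1 + |Real.log (‖z - y‖ / ‖x - y‖)|))) := by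
      refine (tendsto_const_nhds.mul hab.norm).mul (tendsto_const_nhds.add ?_)
      refine Tendsto.abs ?_
      refine Tendsto.log (hcb.norm.div hab.norm (norm_ne_zero_iff.2 hyx0)) ?_
      exact div_ne_zero (norm_ne_zero_iff.2 hzy0) (norm_ne_zero_iff.2 hyx0)
    refine le_of_tendsto_of_tendsto h1 h2 ?_
    filter_upwards [hbd a x hx ha, hbd b y hy hb, hbd c z hz hc, hab.eventually_ne hyx0,
      hcb.eventually_ne hzy0] with n n1 n2 n3 n4 n5
    rw [heq _ (haL n), heq _ (hbL n), heq _ (hcL n)]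
    exact h _ (haL n) _ (hbL n) _ (hcL n) n1 n2 n3 (sub_ne_zero.1 n4) (sub_ne_zero.1 n5)
  · intro x
    obtain ⟨a, haL, ha⟩ := hseq x
    have hVa : Tendsto (fun n => extendFrom L V (a n)) atTop (𝓝 (extendFrom L V x)) :=
      (hcont.tendsto x).comp ha
    refine le_of_tendsto_of_tendsto hVa.norm
      (tendsto_const_nhds.mul (tendsto_const_nhds.add (ha.norm.pow 2))) ?_
    filter_upwards with n
    rw [heq _ (haL n)]
    exact hB _ (haL n)

end Pool.Agent.H66.UP
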