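import Pool.Agent.H31.NS.CVT

/-!
# Module [H66 UP KS2]: the coefficients of the Lagrange identity are integrable functions

PROOF. As in CVT (H31/NS): `2 d + 1` nodes `F` with `b p ≠ 0`; `E p w = b p ^ 2 (dg p * pf (KA p) w - KA (gg p) w)` is integrable (`pf_ka`, `ka_int`) and equals `η.eval p` if `LgK d a b w η` and `gg p ≠ w`. `h j w = ∑_(p ∈ F) (Lagrange.basis F id p).coeff j * E p w`.
For all `w` outside a finite set (`lgk_fin`, the points `gg p`): `η = ∑_(p ∈ F) C (η.eval p) * Lagrange.basis F id p` (`Lagrange.eq_interpolate`, `natDegree η ≤ 2 d`), so `η.coeff j = h j w` and `η = ∑_(j ≤ 2 d) C (h j w) * X ^ j` (`as_sum_range'`).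
-/

set_option autoImplicit false

open Filter Topology Polynomial Metric Set MeasureTheory

namespace Pool.Agent.H66.UP

open Pool.Agent.H61.TT Pool.Agent.H57.CP Pool.Agent.H3.NC Pool.Agent.H78.NS Pool.Agent.H31.NS

variable {d : ℕ} {a b : Polynomial ℂ}

theorem hco {L0 θ : ℝ} (h : SP d a b L0 θ) : ∃ hh : ℕ → ℂ → ℂ, (∀ j, Integrable (hh j)) ∧
    ∀ᵐ w : ℂ, LgK d a b w (∑ j ∈ Finset.range (2 * d + 1), C (hh j w) * X ^ j) := by
  have hb : b ≠ 0 := b_ne h.rt
  obtain ⟨F, hF, hFc⟩ := (b.roots.toFinset.finite_toSet).infinite_compl.exists_subset_card_eq (2 * d + 1)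
  have hFb : ∀ p ∈ F, b.eval p ≠ 0 := by
    intro p hp1 hp2
    refine hF hp1 ?_
    rw [Finset.mem_coe, Multiset.mem_toFinset, mem_roots hb]
    exact hp2
  have hinj : Set.InjOn (id : ℂ → ℂ) (F : Set ℂ) := Function.injective_id.injOn
  obtain ⟨E, hE⟩ : ∃ E : ℂ → ℂ → ℂ, E = fun p x => b.eval p ^ 2 * (dg a b p * pf a b (Pool.Agent.H1.PU.KA p) x -
      Pool.Agent.H1.PU.KA (gg a b p) x) := ⟨_, rfl⟩
  have hEi : ∀ p, Integrable (E p) := by
    intro p
    rw [hE]
    exact (((pf_ka h.rt p).const_mul _).sub (Pool.Agent.H1.PU.ka_int _)).const_mul _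
  have hEv : ∀ (x : ℂ) (η : Polynomial ℂ), LgK d a b x η → (∀ p ∈ F, gg a b p ≠ x) → ∀ p ∈ F, η.eval p = E p x := by
    intro x η hη hx p hp1
    have h1 := hη.2 p (hFb p hp1) (hx p hp1)
    have h2 := hFb p hp1
    rw [hE]
    simp only
    rw [h1, add_sub_cancel_left]
    field_simp
  refine ⟨fun j w => ∑ p ∈ F, (Lagrange.basis F id p).coeff j * E p w, fun j => ?_, ?_⟩
  · exact integrable_finsetSum _ fun p _ => (hEi p).const_mul _
  · have hf1 : ((gg a b) '' (F : Set ℂ)).Finite := (Finset.finite_toSet _).image _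
    filter_upwards [compl_mem_ae_iff.2 ((lgk_fin h).measure_zero volume),
      compl_mem_ae_iff.2 (hf1.measure_zero volume)] with x hx2 hx3
    obtain ⟨η, hη⟩ := not_not.1 hx2
    have hx4 : ∀ p ∈ F, gg a b p ≠ x := fun p hp1 hpx => hx3 ⟨p, hp1, hpx⟩
    have h1 : η.degree < (F.card : WithBot ℕ) := by
      rw [hFc]
      refine lt_of_le_of_lt degree_le_natDegree ?_
      exact_mod_cast Nat.lt_succ_of_le hη.1
    have h2 := Lagrange.eq_interpolate (v := id) hinj h1
    rw [Lagrange.interpolate_apply] at h2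
    have h3 : ∀ j, η.coeff j = ∑ p ∈ F, (Lagrange.basis F id p).coeff j * E p x := by
      intro j
      conv_lhs => rw [h2]
      rw [finsetSum_coeff]
      refine Finset.sum_congr rfl fun p hp1 => ?_
      rw [coeff_C_mul, mul_comm]
      congr 1
      exact hEv x η hη hx4 p hp1
    have h4 : ∑ j ∈ Finset.range (2 * d + 1), C (∑ p ∈ F, (Lagrange.basis F id p).coeff j * E p x) * X ^ j = η := by
      conv_rhs => rw [η.as_sum_range' (2 * d + 1) (Nat.lt_succ_of_le hη.1)]
      refine Finset.sum_congr rfl fun j _ => ?_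
      rw [← h3 j, C_mul_X_pow_eq_monomial]
    rw [h4]
    exact hη

end Pool.Agent.H66.UP
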