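import Pool.Agent.H66.UP.KS1
import Pool.Agent.H66.UP.KS2

/-!
# Module [H66 UP KS3]: the push forward identities for the kernel (sphere)

`KK x w = KA x w + ∑_j hh j w * V j x`. Let `w` be such that `LgK d a b w η`, `η = ∑_j C (hh j w) X ^ j`, and `w ≠ gg x` (a finite set is excluded), `Vη x = ∑_j hh j w * V j x` (`η.coeff j = hh j w` for `j ≤ 2 d`): `VelP a b η Vη` (`velp_lin`).
`step_s`: `LgK` at `x`: `dg x * pf (KA x) w = KA (gg x) w + η x / b x ^ 2`, and `Vη (gg x) = dg x * Vη x + η x / b x ^ 2`: subtract and divide by `dg x`.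
`val0_s`: `LgK` at `c`: `0 = KA (gg c) w + η c / b c ^ 2` and `Vη (gg c) = η c / b c ^ 2` (`dg c = 0`).
`crit_s`: for `z` near `c`: `dg z * pf (KA z) w = KA (gg z) w + η z / b z ^ 2`. Derivative at `c`: left side `dg'(c) * pf (KA c) w` (`dg c = 0`, `dg` differentiable at `c` with `dg'(c) = ww'(c) / b c ^ 2`, `z ↦ pf (KA z) w` continuous at `c`: `y ≠ c` for `y ∈ fs a b w` as `gg c ≠ w`);
use `HasDerivAt` of a product of a function vanishing at `c` with a continuous one. Right side: `KA (gg z) w` has derivative `0` at `c` (chain rule, `dg c = 0`, `w ≠ gg c`; if `w = 0, 1` exclude these points too) plus `E'(c)`, `E = η / b ^ 2`.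
`velp_crit`: `dg'(c) Vη c + E'(c) = 0`. So `pf (KA c) w = - Vη c` (`dg'(c) ≠ 0`, `hs`).
-/

set_option autoImplicit false

open Filter Topology Polynomial Metric Set MeasureTheory

namespace Pool.Agent.H66.UP

open Pool.Agent.H61.TT Pool.Agent.H57.CP Pool.Agent.H3.NC Pool.Agent.H78.NS Pool.Agent.H31.NS Pool.Agent.H18.UP
open Pool.Agent.H1.PU (KA)

variable {d : ℕ} {a b : Polynomial ℂ}

/-- the kernel with the velocities -/
noncomputable def KV (N : ℕ) (hh V : ℕ → ℂ → ℂ) (x w : ℂ) : ℂ :=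
  KA x w + ∑ j ∈ Finset.range (N + 1), hh j w * V j x

private theorem ks_coeff {N : ℕ} (β : ℕ → ℂ) {j : ℕ} (hj : j ∈ Finset.range (N + 1)) :
    (∑ i ∈ Finset.range (N + 1), C (β i) * X ^ i : Polynomial ℂ).coeff j = β j := by
  rw [finsetSum_coeff, Finset.sum_eq_single j]
  · rw [coeff_C_mul, coeff_X_pow, if_pos rfl, mul_one]
  · intro i _ hi
    rw [coeff_C_mul, coeff_X_pow, if_neg (fun h => hi h.symm), mul_zero]
  · intro h
    exact absurd hj h

private theorem ks_velp {hh V : ℕ → ℂ → ℂ} (hV : ∀ j ≤ 2 * d, VelP a b (X ^ j) (V j)) {w : ℂ}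
    (hw : LgK d a b w (∑ j ∈ Finset.range (2 * d + 1), C (hh j w) * X ^ j)) :
    VelP a b (∑ j ∈ Finset.range (2 * d + 1), C (hh j w) * X ^ j)
      (fun x => ∑ j ∈ Finset.range (2 * d + 1), hh j w * V j x) := by
  have h1 := velp_lin hV hw.1
  have h2 : (fun x => ∑ j ∈ Finset.range (2 * d + 1), hh j w * V j x) =
      (fun x => ∑ j ∈ Finset.range (2 * d + 1),
        (∑ j ∈ Finset.range (2 * d + 1), C (hh j w) * X ^ j : Polynomial ℂ).coeff j * V j x) := by
    funext x
    refine Finset.sum_congr rfl fun j hj => ?_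
    rw [ks_coeff (fun i => hh i w) hj]
  rw [h2]
  exact h1

private theorem ks_ne (p : ℂ) : ∀ᵐ w : ℂ, w ≠ p := compl_mem_ae_iff.2 (measure_singleton p)

theorem step_s {L0 θ : ℝ} (h : SP d a b L0 θ) {hh V : ℕ → ℂ → ℂ} (hV : ∀ j ≤ 2 * d, VelP a b (X ^ j) (V j))
    (hl : ∀ᵐ w : ℂ, LgK d a b w (∑ j ∈ Finset.range (2 * d + 1), C (hh j w) * X ^ j)) {x : ℂ} (hb : b.eval x ≠ 0)
    (hx : dg a b x ≠ 0) : ∀ᵐ w : ℂ, KA x w - pf a b (KA x) w = KV (2 * d) hh V x w - KV (2 * d) hh V (gg a b x) w / dg a b x := by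
  have _h := h
  filter_upwards [hl, ks_ne (gg a b x)] with w hw hne
  have h1 := hw.2 x hb (Ne.symm hne)
  have h2 := (ks_velp hV hw).2.1 x hb
  simp only at h2
  unfold KV
  rw [h2]
  have h3 : KA (gg a b x) w = dg a b x * pf a b (KA x) w -
      (∑ j ∈ Finset.range (2 * d + 1), C (hh j w) * X ^ j : Polynomial ℂ).eval x / b.eval x ^ 2 := by
    rw [h1]; ring
  rw [h3]
  field_simp
  ring

theorem val0_s {L0 θ : ℝ} (h : SP d a b L0 θ) {hh V : ℕ → ℂ → ℂ} (hV : ∀ j ≤ 2 * d, VelP a b (X ^ j) (V j))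
    (hl : ∀ᵐ w : ℂ, LgK d a b w (∑ j ∈ Finset.range (2 * d + 1), C (hh j w) * X ^ j)) {c : ℂ} (hc : Cr a b c) :
    ∀ᵐ w : ℂ, KV (2 * d) hh V (gg a b c) w = 0 := by
  have _h := h
  have hdc : dg a b c = 0 := by
    unfold dg
    rw [hc.2, zero_div]
  filter_upwards [hl, ks_ne (gg a b c)] with w hw hne
  have h1 := hw.2 c hc.1 (Ne.symm hne)
  have h2 := (ks_velp hV hw).2.1 c hc.1
  simp only at h2
  unfold KV
  rw [h2, hdc, zero_mul, zero_add]
  rw [hdc, zero_mul] at h1
  exact h1.symm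

theorem crit_s {L0 θ : ℝ} (h : SP d a b L0 θ) {hh V : ℕ → ℂ → ℂ} (hV : ∀ j ≤ 2 * d, VelP a b (X ^ j) (V j))
    (hl : ∀ᵐ w : ℂ, LgK d a b w (∑ j ∈ Finset.range (2 * d + 1), C (hh j w) * X ^ j)) {c : ℂ} (hc : Cr a b c)
    (hs : (derivative (ww a b)).eval c ≠ 0) : ∀ᵐ w : ℂ, KA c w - pf a b (KA c) w = KV (2 * d) hh V c w := by
  have hbc := hc.1
  have hdc : dg a b c = 0 := by
    unfold dg
    rw [hc.2, zero_div]
  have hbc2 : b.eval c ^ 2 ≠ 0 := pow_ne_zero 2 hbc
  -- the derivative of `dg`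
  have hD : HasDerivAt (dg a b) ((derivative (ww a b)).eval c / b.eval c ^ 2) c := by
    have h1 := ((ww a b).hasDerivAt c).div ((b.hasDerivAt c).pow 2) hbc2
    have e : ((derivative (ww a b)).eval c * b.eval c ^ 2 -
        (ww a b).eval c * (2 * b.eval c ^ (2 - 1) * (derivative b).eval c)) / (b.eval c ^ 2) ^ 2 =
        (derivative (ww a b)).eval c / b.eval c ^ 2 := by
      rw [hc.2, zero_mul, sub_zero]
      field_simp
    have h2 := h1.congr_deriv (by simpa using e)
    exact h2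
  have hg : HasDerivAt (gg a b) 0 c := by
    have h1 := (hasStrictDerivAt_gg (a := a) (b := b) hbc).hasDerivAt
    rwa [hdc] at h1
  filter_upwards [hl, ks_ne (gg a b c), ks_ne 0, ks_ne 1] with w hw hne hw0 hw1
  have hvel := ks_velp hV hw
  have hcr := velp_crit hvel hc
  obtain ⟨η, hη⟩ : ∃ η : Polynomial ℂ, η = ∑ j ∈ Finset.range (2 * d + 1), C (hh j w) * X ^ j :=
    ⟨_, rfl⟩
  rw [← hη] at hw hvel hcr
  -- the right side
  have hE : HasDerivAt (fun z => η.eval z / b.eval z ^ 2)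
      (deriv (fun z => η.eval z / b.eval z ^ 2) c) c := by
    have h1 : DifferentiableAt ℂ (fun z => η.eval z / b.eval z ^ 2) c :=
      η.differentiable.differentiableAt.div (b.differentiable.differentiableAt.pow 2) hbc2
    exact h1.hasDerivAt
  have hK : HasDerivAt (fun z => KA (gg a b z) w) 0 c := by
    have h1 : DifferentiableAt ℂ (fun u : ℂ => KA u w) (gg a b c) := by
      unfold KA
      refine DifferentiableAt.div (by fun_prop) (by fun_prop) ?_
      exact mul_ne_zero (mul_ne_zero hw0 (sub_ne_zero.2 hw1)) (sub_ne_zero.2 hne)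
    have h2 := h1.hasDerivAt.comp c hg
    rw [mul_zero] at h2
    exact h2
  have hR := hK.add hE
  rw [zero_add] at hR
  -- the left side
  have hP : ContinuousAt (fun z => pf a b (KA z) w) c := by
    unfold pf
    refine tendsto_finsetSum _ fun y hy => ?_
    have hy2 := ((Pool.Agent.H61.TT.mem_fs h.rt w y).1 hy).2
    have hyc : y - c ≠ 0 := by
      intro h0
      rw [sub_eq_zero.1 h0] at hy2
      exact hne hy2.symm
    have e : (fun z : ℂ => KA z y / dg a b y ^ 2) =
        fun z => z * (z - 1) * ((y * (y - 1))⁻¹ * (y - z)⁻¹) / dg a b y ^ 2 := by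
      funext z
      have e1 : KA z y = z * (z - 1) * ((y * (y - 1))⁻¹ * (y - z)⁻¹) := by
        unfold KA
        rw [div_eq_mul_inv, mul_inv (y * (y - 1))]
      rw [e1]
    have h2 : ContinuousAt (fun z : ℂ => KA z y / dg a b y ^ 2) c := by
      rw [e]
      refine ContinuousAt.div_const ?_ _
      refine ContinuousAt.mul (by fun_prop) ?_
      refine ContinuousAt.mul continuousAt_const ?_
      exact ContinuousAt.inv₀ (by fun_prop) hyc
    exact h2
  have hL : HasDerivAt (fun z => dg a b z * pf a b (KA z) w)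
      ((derivative (ww a b)).eval c / b.eval c ^ 2 * pf a b (KA c) w) c := by
    rw [hasDerivAt_iff_tendsto_slope]
    have h1 := hasDerivAt_iff_tendsto_slope.1 hD
    have h2 := h1.mul (hP.tendsto.mono_left nhdsWithin_le_nhds)
    refine h2.congr fun z => ?_
    simp only [slope, vsub_eq_sub, smul_eq_mul, hdc, zero_mul, sub_zero]
    ring
  -- equality near `c`
  have hev : (fun z => dg a b z * pf a b (KA z) w) =ᶠ[𝓝 c]
      (fun z => KA (gg a b z) w) + fun z => η.eval z / b.eval z ^ 2 := by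
    have h1 : ∀ᶠ z in 𝓝 c, b.eval z ≠ 0 := b.continuous.continuousAt.eventually_ne hbc
    have h2 : ∀ᶠ z in 𝓝 c, gg a b z ≠ w :=
      hg.continuousAt.eventually_ne (Ne.symm hne)
    filter_upwards [h1, h2] with z hz1 hz2
    exact hw.2 z hz1 hz2
  have hL2 := hL.congr_of_eventuallyEq hev.symm
  have hu := hL2.unique hR
  -- the end
  have hD0 : (derivative (ww a b)).eval c / b.eval c ^ 2 ≠ 0 := div_ne_zero hs hbc2
  have h5 : (derivative (ww a b)).eval c / b.eval c ^ 2 *
      (pf a b (KA c) w + ∑ j ∈ Finset.range (2 * d + 1), hh j w * V j c) = 0 := by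
    rw [mul_add, hu]
    rw [add_comm]
    exact hcr
  have h6 := (mul_eq_zero.1 h5).resolve_left hD0
  unfold KV
  linear_combination (-1 : ℂ) * h6

end Pool.Agent.H66.UP
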