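import Pool.Agent.H64.PC.VB4

/-!
# Module [H66 UP VS1]: the motions of the preimages of a moving fixed point

`Sl v0 w r q X m z F`: `t ↦ psi (q t) (F t)` (`= q t + 1 / F t`) starts at `z` and lands on `X t` at the time `m` (H64/PC/VB2, VB3). `vl q F = q'(0) - F'(0) / F(0) ^ 2`: the velocity of `z`.
PROOFS. `sl_ex`: `pre_sel` (VB3) gives `F` with the landing property, `fb_iff` (VB2) turns it into `KB` (as in the proof of `pre_sel`, `z ≠ q 0` by `h.nq 0 _ m`).
`sl_add`: `X t` is fixed (`hfix`), so `(Rf _)^[m + k] (psi ..) = X t` (`Function.iterate_add_apply`, `Function.iterate_fixed`), `fb_iff` again.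
`sl_ne`: suppose `F t = F' t` for some `t` of the ball. The set `{t ∈ ball 0 r | F t = F' t}` is closed in the ball (continuity) and open: at `t0` of it `kb_loc` (VB3) for the common point `(t0, F t0)` of `KB` gives `ζ` such that near `t0` every point `(t, u)` of `KB` near `(t0, F t0)` has `u = ζ t`, so `F = ζ = F'` near `t0` (continuity).
The ball is preconnected (`IsPreconnected.subset_of_closure_inter_subset` or the clopen argument of `sel`; or: `F - F'` is analytic on the ball and vanishes near `t0`, so everywhere: `AnalyticOnNhd.eqOn_zero_of_preconnected_of_eventuallyEq_zero`), so `F 0 = F' 0`: `(z - q 0)⁻¹ = (z' - q 0)⁻¹`, `z = z'`.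
`sl_eq`: the same with `t0 = 0`. `vl_mark`: with `E = F / (1 + (q - q') F)` (`psi q F = psi q' E`; the denominator is not zero because `psi (q t) (F t) ≠ q' t`: `h'.nq`; `pt_coe_iff`) one has `Sl .. q' .. E`, so `E = F'` on the ball (`sl_eq`), and
`q + 1 / F = q' + 1 / E` near `0`: equal derivatives.
-/

set_option autoImplicit false

open Filter Topology Polynomial Metric Set

namespace Pool.Agent.H66.UP

open Pool.Agent.H44.Fatou Pool.Agent.H32.BT Pool.Agent.H79.Eul Pool.Agent.H79.Par Pool.Agent.H64.PC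
open Pool.Agent.H79.Par

variable {d : ℕ}

/-- a moving preimage -/
structure Sl (v0 w : E d) (r : ℝ) (q X : ℂ → ℂ) (m : ℕ) (z : ℂ) (F : ℂ → ℂ) : Prop where
  df : DifferentiableOn ℂ F (ball 0 r)
  f0 : F 0 = (z - q 0)⁻¹
  ne : z ≠ q 0
  kb : ∀ t ∈ ball (0 : ℂ) r, (t, F t) ∈ KB v0 w r q X m

/-- its velocity -/
noncomputable def vl (q F : ℂ → ℂ) : ℂ := deriv q 0 - deriv F 0 / F 0 ^ 2

variable {v0 w : E d} {r : ℝ} {q q' X : ℂ → ℂ} {m m' : ℕ} {z z' : ℂ} {F F' : ℂ → ℂ}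

theorem sl_ex (h : BD v0 w r q X) (hz : (Rf v0)^[m] (z : OnePoint ℂ) = (X 0 : OnePoint ℂ)) :
    ∃ F, Sl v0 w r q X m z F := by
  obtain ⟨F, h1, h2, h3, -, h5⟩ := pre_sel h hz
  refine ⟨F, h1, h2, ?_, fun t ht => ?_⟩
  · intro h6
    rw [h2, h6, sub_self, inv_zero] at h3
    exact h3 rfl
  · have ht' : ‖t‖ ≤ r := (mem_ball_zero_iff.1 ht).le
    exact ⟨ht', (fb_iff (h.cop t ht') (h.deg t ht') m (q t) (X t) (F t)).1 (h5 t ht)⟩

theorem sl_land (h : BD v0 w r q X) (hs : Sl v0 w r q X m z F) {t : ℂ} (ht : t ∈ ball (0 : ℂ) r) :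
    (Rf (v0 + t • w))^[m] (psi (q t) (F t)) = (X t : OnePoint ℂ) := by
  have ht' : ‖t‖ ≤ r := (mem_ball_zero_iff.1 ht).le
  exact (fb_iff (h.cop t ht') (h.deg t ht') m (q t) (X t) (F t)).2 (hs.kb t ht).2

theorem sl_add (h : BD v0 w r q X)
    (hfix : ∀ t : ℂ, ‖t‖ ≤ r → Rf (v0 + t • w) (X t : OnePoint ℂ) = (X t : OnePoint ℂ))
    (hs : Sl v0 w r q X m z F) (k : ℕ) : Sl v0 w r q X (m + k) z F := by
  refine ⟨hs.df, hs.f0, hs.ne, fun t ht => ?_⟩
  have ht' : ‖t‖ ≤ r := (mem_ball_zero_iff.1 ht).le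
  refine ⟨ht', (fb_iff (h.cop t ht') (h.deg t ht') (m + k) (q t) (X t) (F t)).1 ?_⟩
  rw [add_comm m k, Function.iterate_add_apply, sl_land h hs ht]
  exact Function.iterate_fixed (hfix t ht') k

private theorem sl_an (hs : Sl v0 w r q X m z F) : AnalyticOnNhd ℂ F (ball 0 r) :=
  hs.df.analyticOnNhd isOpen_ball

private theorem sl_ev (hs : Sl v0 w r q X m z F) {t : ℂ} (ht : t ∈ ball (0 : ℂ) r) {ζ : ℂ → ℂ}
    {δ : ℝ} (hδ : 0 < δ) (h3 : ∀ s ∈ ball t δ, ∀ y ∈ ball (F t) δ, (s, y) ∈ KB v0 w r q X m → y = ζ s) :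
    F =ᶠ[𝓝 t] ζ := by
  have hc : ContinuousAt F t := (hs.df.continuousOn).continuousAt (isOpen_ball.mem_nhds ht)
  filter_upwards [ball_mem_nhds t hδ, hc (ball_mem_nhds _ hδ), isOpen_ball.mem_nhds ht] with s h4 h5 h6
  exact h3 s h4 (F s) h5 (hs.kb s h6)

private theorem sl_coin (h : BD v0 w r q X) (hs : Sl v0 w r q X m z F) (hs' : Sl v0 w r q X m z' F')
    {t : ℂ} (ht : t ∈ ball (0 : ℂ) r) (he : F t = F' t) : EqOn F F' (ball 0 r) := by
  obtain ⟨δ, ζ, hδ, -, -, -, h3⟩ := kb_loc h m (hs.kb t ht) ht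
  have e1 : F =ᶠ[𝓝 t] ζ := sl_ev hs ht hδ h3
  have e2 : F' =ᶠ[𝓝 t] ζ := sl_ev hs' ht hδ (by
    intro s h4 y h5 h6
    rw [← he] at h5
    exact h3 s h4 y h5 h6)
  exact (sl_an hs).eqOn_of_preconnected_of_eventuallyEq (sl_an hs') (convex_ball _ _).isPreconnected ht
    (e1.trans e2.symm)

theorem sl_eq (h : BD v0 w r q X) (hs : Sl v0 w r q X m z F) (hs' : Sl v0 w r q X m z F') :
    EqOn F F' (ball 0 r) :=
  sl_coin h hs hs' (mem_ball_self h.hr) (by rw [hs.f0, hs'.f0])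

theorem sl_ne (h : BD v0 w r q X) (hs : Sl v0 w r q X m z F) (hs' : Sl v0 w r q X m z' F') (hne : z ≠ z') :
    ∀ t ∈ ball (0 : ℂ) r, F t ≠ F' t := by
  intro t ht he
  have h1 := sl_coin h hs hs' ht he (mem_ball_self h.hr)
  rw [hs.f0, hs'.f0, inv_inj] at h1
  exact hne (sub_left_injective h1)

private theorem vl_der (hr : 0 < r) (hq : AnalyticAt ℂ q 0) (hs : Sl v0 w r q X m z F) :
    HasDerivAt (fun t => q t + (F t)⁻¹) (vl q F) 0 := by
  have hF0 : F 0 ≠ 0 := by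
    rw [hs.f0]
    exact inv_ne_zero (sub_ne_zero.2 hs.ne)
  have hF : HasDerivAt F (deriv F 0) 0 :=
    (hs.df.differentiableAt (isOpen_ball.mem_nhds (mem_ball_self hr))).hasDerivAt
  have h1 := hq.differentiableAt.hasDerivAt.add (hF.inv hF0)
  have h2 : deriv q 0 + -deriv F 0 / F 0 ^ 2 = vl q F := by
    unfold vl
    ring
  rw [h2] at h1
  exact h1

/-- two marks give the same velocity -/
theorem vl_mark (h : BD v0 w r q X) (h' : BD v0 w r q' X) (hs : Sl v0 w r q X m z F)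
    (hs' : Sl v0 w r q' X m z F') : vl q F = vl q' F' := by
  have h0 : (0 : ℂ) ∈ ball (0 : ℂ) r := mem_ball_self h.hr
  have hden : ∀ t ∈ ball (0 : ℂ) r, 1 + (q t - q' t) * F t ≠ 0 := by
    intro t ht h1
    have ht' : ‖t‖ ≤ r := (mem_ball_zero_iff.1 ht).le
    have h2 : psi (q t) (F t) = (q' t : OnePoint ℂ) := by
      unfold psi
      rw [pt_coe_iff (psi_ne (q t) (F t))]
      linear_combination h1
    have h3 := sl_land h hs ht
    rw [h2] at h3
    exact h'.nq t ht' m h3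
  obtain ⟨G, hG⟩ : ∃ G : ℂ → ℂ, G = fun t => F t / (1 + (q t - q' t) * F t) := ⟨_, rfl⟩
  have hpsi : ∀ t ∈ ball (0 : ℂ) r, psi (q' t) (G t) = psi (q t) (F t) := by
    intro t ht
    have h1 := hden t ht
    unfold psi
    have h2 := pt_smul (x := 1 + q t * F t) (y := F t) (inv_ne_zero h1)
    have h3 : G t = F t * (1 + (q t - q' t) * F t)⁻¹ := by
      rw [hG]
      exact div_eq_mul_inv _ _
    have h4 : (1 + (q t - q' t) * F t) * (1 + (q t - q' t) * F t)⁻¹ = 1 := mul_inv_cancel₀ h1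
    rw [← h2, h3]
    congr 1
    linear_combination -h4
  have hsG : Sl v0 w r q' X m z G := by
    refine ⟨fun t ht => ?_, ?_, hs'.ne, fun t ht => ?_⟩
    · have ht' : ‖t‖ ≤ r := (mem_ball_zero_iff.1 ht).le
      have h1 : DifferentiableAt ℂ F t := hs.df.differentiableAt (isOpen_ball.mem_nhds ht)
      have h2 : DifferentiableAt ℂ q t := (h.qan t ht').differentiableAt
      have h3 : DifferentiableAt ℂ q' t := (h'.qan t ht').differentiableAt
      rw [hG]
      exact (h1.div ((differentiableAt_const _).add ((h2.sub h3).mul h1)) (hden t ht)).differentiableWithinAt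
    · have h1 := hden 0 h0
      have h2 : z - q 0 ≠ 0 := sub_ne_zero.2 hs.ne
      have h3 : z - q' 0 ≠ 0 := sub_ne_zero.2 hs'.ne
      rw [hG]
      simp only []
      rw [div_eq_iff h1, hs.f0]
      field_simp
      ring
    · have ht' : ‖t‖ ≤ r := (mem_ball_zero_iff.1 ht).le
      refine ⟨ht', (fb_iff (h.cop t ht') (h.deg t ht') m (q' t) (X t) (G t)).1 ?_⟩
      rw [hpsi t ht]
      exact sl_land h hs ht
  have heq := sl_eq h' hsG hs'
  have hr0 : ‖(0 : ℂ)‖ ≤ r := by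
    rw [norm_zero]
    exact h.hr.le
  have d1 := vl_der h.hr (h.qan 0 hr0) hs
  have d2 := vl_der h.hr (h'.qan 0 hr0) hs'
  have hF0 : F 0 ≠ 0 := by
    rw [hs.f0]
    exact inv_ne_zero (sub_ne_zero.2 hs.ne)
  have hc : ContinuousAt F 0 := (hs.df.continuousOn).continuousAt (isOpen_ball.mem_nhds h0)
  have hev : (fun t => q t + (F t)⁻¹) =ᶠ[𝓝 0] fun t => q' t + (F' t)⁻¹ := by
    filter_upwards [hc.eventually_ne hF0, isOpen_ball.mem_nhds h0] with t h1 h2
    have h3 := hden t h2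
    rw [← heq h2, hG]
    simp only [inv_div]
    field_simp
    ring
  exact d1.unique ((hev.hasDerivAt_iff).2 d2)

end Pool.Agent.H66.UP
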