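import Pool.Agent.H66.UP.VS1

/-!
# Module [H66 UP VS2]: the velocities of the preimages of a moving fixed point

`LX`: `V` is the velocity of all points which land at `X 0`, for all three marks.
PROOFS. `lx_ex`: `V z` = the velocity of a selection for the mark `Q 0` (choice, `sl_ex`); by `sl_add`, `sl_eq` it does not depend on the time `m` (compare at the time `m + m'`: `sl_add` for both, commute) and by `vl_mark` not on the mark.
`lx_step`: let `F` be the selection of `z` at the time `m + 1`, mark `q = Q 0`. `G t = hs (v0 + t w) (1 + q F, F)` (holomorphic, never `(0, 0)`: `hs_ne`, VB1), `E = G.2 / (G.1 - q G.2)`; the denominator is not `0` because `Rf (psi q F) ≠ q t` (its orbit lands on `X t`, `h.nq`, `pt_coe_iff`). `psi (q t) (E t) = Rf (psi (q t) (F t))` (`pt_smul`),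
so `E` is the selection of `gg z` at the time `m`. `q + 1 / E = G.1 / G.2 = ev (v0 + t w).1 (q + 1 / F) / ev (v0 + t w).2 (q + 1 / F)` near `0` (`hs_fin`, as at the end of `vel_pre`), `step_der` (VB4) gives the formula. (`z` landing at the time `0`: `z = X 0`, use the time `1` by `hfix`.)
`lx_bd`: as in `vel_pre` (VB4): `lan3` for the homogeneous coordinates `(1 + Q 0 F, F)`, which omit the three marks: `‖F'(0) (1 + q F) - F (q' F + q F')‖ ≤ C (‖1 + q F‖ ^ 2 + ‖F‖ ^ 2)` at `0`; divide by `‖F 0‖ ^ 2`: `1 + q F = z F` at `0`.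
-/

set_option autoImplicit false

open Filter Topology Polynomial Metric Set

namespace Pool.Agent.H66.UP

open Pool.Agent.H44.Fatou Pool.Agent.H32.BT Pool.Agent.H79.Eul Pool.Agent.H79.Par Pool.Agent.H64.PC
open Pool.Agent.H61.TT (gg)

variable {d : ℕ}

/-- `V` is the velocity of the points which land at `X 0` -/
def LX (v0 w : E d) (r : ℝ) (Q : Fin 3 → ℂ → ℂ) (X : ℂ → ℂ) (V : ℂ → ℂ) : Prop :=
  ∀ (m : ℕ) (z : ℂ), (Rf v0)^[m] (z : OnePoint ℂ) = (X 0 : OnePoint ℂ) → ∀ (i : Fin 3) (F : ℂ → ℂ),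
    Sl v0 w r (Q i) X m z F → V z = vl (Q i) F

variable {v0 w : E d} {r : ℝ} {Q : Fin 3 → ℂ → ℂ} {X V : ℂ → ℂ}

theorem lx_ex (h : BM v0 w r Q X 1) : ∃ V : ℂ → ℂ, LX v0 w r Q X V := by
  classical
  have hfix : ∀ t : ℂ, ‖t‖ ≤ r → Rf (v0 + t • w) (X t : OnePoint ℂ) = (X t : OnePoint ℂ) :=
    fun t ht => h.per t ht
  refine ⟨fun z => if hz : ∃ (m : ℕ) (F : ℂ → ℂ), Sl v0 w r (Q 0) X m z F then
    vl (Q 0) hz.choose_spec.choose else 0, fun m z hz i F hF => ?_⟩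
  have hex : ∃ (m : ℕ) (F : ℂ → ℂ), Sl v0 w r (Q 0) X m z F := ⟨m, sl_ex (h.bd 0) hz⟩
  show (if hz : ∃ (m : ℕ) (F : ℂ → ℂ), Sl v0 w r (Q 0) X m z F then
    vl (Q 0) hz.choose_spec.choose else 0) = vl (Q i) F
  rw [dif_pos hex]
  have h1 := sl_add (h.bd 0) hfix hex.choose_spec.choose_spec m
  have h2 := sl_add (h.bd i) hfix hF hex.choose
  rw [add_comm] at h2
  exact vl_mark (h.bd 0) (h.bd i) h1 h2

private theorem vl_der {q F : ℂ → ℂ} (hq : DifferentiableAt ℂ q 0) (hF : DifferentiableAt ℂ F 0)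
    (h0 : F 0 ≠ 0) : HasDerivAt (fun t => q t + (F t)⁻¹) (vl q F) 0 := by
  have h1 := hq.hasDerivAt.add (hF.hasDerivAt.inv h0)
  have h2 : HasDerivAt (fun t => q t + (F t)⁻¹) (deriv q 0 + -deriv F 0 / F 0 ^ 2) 0 := h1
  convert h2 using 1
  unfold vl
  ring

theorem lx_step (h : BM v0 w r Q X 1) (hV : LX v0 w r Q X V) {m : ℕ} {z : ℂ}
    (hz : (Rf v0)^[m] (z : OnePoint ℂ) = (X 0 : OnePoint ℂ)) (hb : (pol v0.2).eval z ≠ 0) :
    V (gg (pol v0.1) (pol v0.2) z) = Pool.Agent.H61.TT.dg (pol v0.1) (pol v0.2) z * V z + xi v0 w z := by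
  have hr := (h.bd 0).hr
  have h00 : ‖(0 : ℂ)‖ ≤ r := by rw [norm_zero]; exact hr.le
  have e0 : v0 + (0 : ℂ) • w = v0 := by rw [zero_smul, add_zero]
  have hle : ∀ t ∈ ball (0 : ℂ) r, ‖t‖ ≤ r := fun t ht => (mem_ball_zero_iff.1 ht).le
  have h0mem : (0 : ℂ) ∈ ball (0 : ℂ) r := mem_ball_self hr
  have hfix : ∀ t : ℂ, ‖t‖ ≤ r → Rf (v0 + t • w) (X t : OnePoint ℂ) = (X t : OnePoint ℂ) :=
    fun t ht => h.per t ht
  have hz1 : (Rf v0)^[m + 1] (z : OnePoint ℂ) = (X 0 : OnePoint ℂ) := by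
    rw [Function.iterate_succ_apply', hz]
    have := hfix 0 h00
    rwa [e0] at this
  obtain ⟨F, hF⟩ := sl_ex (h.bd 0) hz1
  have hz' : Rf v0 (z : OnePoint ℂ) = ((gg (pol v0.1) (pol v0.2) z : ℂ) : OnePoint ℂ) := rat_coe_of_ne hb
  have hz2 : (Rf v0)^[m] ((gg (pol v0.1) (pol v0.2) z : ℂ) : OnePoint ℂ) = (X 0 : OnePoint ℂ) := by
    rw [← hz', ← Function.iterate_succ_apply]
    exact hz1
  obtain ⟨z', hzd⟩ : ∃ z', z' = gg (pol v0.1) (pol v0.2) z := ⟨_, rfl⟩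
  rw [← hzd] at hz' hz2 ⊢
  obtain ⟨G, hG⟩ : ∃ G : ℂ → ℂ × ℂ, G = fun t => hs (v0 + t • w) (1 + Q 0 t * F t, F t) := ⟨_, rfl⟩
  have hGd : DifferentiableOn ℂ G (ball 0 r) := by
    intro t ht
    have hq : DifferentiableAt ℂ (Q 0) t := ((h.bd 0).qan t (hle t ht)).differentiableAt
    have hFt : DifferentiableAt ℂ F t := hF.df.differentiableAt (isOpen_ball.mem_nhds ht)
    have h1 : DifferentiableAt ℂ (fun t : ℂ =>
        ((v0 + t • w, (1 + Q 0 t * F t, F t)) : E d × (ℂ × ℂ))) t :=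
      ((differentiableAt_const _).add (differentiableAt_id.smul_const w)).prodMk
        (((differentiableAt_const _).add (hq.mul hFt)).prodMk hFt)
    have h2 : DifferentiableAt ℂ (fun p : E d × (ℂ × ℂ) => hs p.1 p.2)
        ((v0 + t • w, (1 + Q 0 t * F t, F t)) : E d × (ℂ × ℂ)) := (hs_an _).differentiableAt
    rw [hG]
    exact (h2.comp t h1).differentiableWithinAt
  have hGne : ∀ t ∈ ball (0 : ℂ) r, ((G t).1 ≠ 0 ∨ (G t).2 ≠ 0) ∧
      Rf (v0 + t • w) (psi (Q 0 t) (F t)) = pt (G t).1 (G t).2 := by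
    intro t ht
    rw [hG]
    exact hs_ne ((h.bd 0).cop t (hle t ht)) ((h.bd 0).deg t (hle t ht))
      (q := (1 + Q 0 t * F t, F t)) (psi_ne (Q 0 t) (F t))
  have hland : ∀ t ∈ ball (0 : ℂ) r, (Rf (v0 + t • w))^[m] (pt (G t).1 (G t).2) = (X t : OnePoint ℂ) := by
    intro t ht
    rw [← (hGne t ht).2, ← Function.iterate_succ_apply]
    exact sl_land (h.bd 0) hF ht
  have hden : ∀ t ∈ ball (0 : ℂ) r, (G t).1 - Q 0 t * (G t).2 ≠ 0 := by
    intro t ht h1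
    have h2 := (pt_coe_iff (hGne t ht).1).2 h1
    have h3 := hland t ht
    rw [h2] at h3
    exact (h.bd 0).nq t (hle t ht) m h3
  obtain ⟨E', hE⟩ : ∃ E' : ℂ → ℂ, E' = fun t => (G t).2 / ((G t).1 - Q 0 t * (G t).2) := ⟨_, rfl⟩
  have hpsiE : ∀ t ∈ ball (0 : ℂ) r, psi (Q 0 t) (E' t) = pt (G t).1 (G t).2 := by
    intro t ht
    have h1 := hden t ht
    unfold psi
    rw [← pt_smul (x := 1 + Q 0 t * E' t) (y := E' t) h1]
    have e2 : E' t * ((G t).1 - Q 0 t * (G t).2) = (G t).2 := by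
      rw [hE]
      exact div_mul_cancel₀ _ h1
    have e1 : (1 + Q 0 t * E' t) * ((G t).1 - Q 0 t * (G t).2) = (G t).1 := by
      have : (1 + Q 0 t * E' t) * ((G t).1 - Q 0 t * (G t).2) =
          (G t).1 - Q 0 t * (G t).2 + Q 0 t * (E' t * ((G t).1 - Q 0 t * (G t).2)) := by ring
      rw [this, e2]
      ring
    rw [e1, e2]
  -- values at zero
  have hpsi0 : psi (Q 0 0) (F 0) = (z : OnePoint ℂ) := by
    have hsub : z - Q 0 0 ≠ 0 := sub_ne_zero.2 hF.ne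
    rw [hF.f0, psi_s (inv_ne_zero hsub), inv_inv, sub_add_cancel]
    unfold pt
    rw [if_neg one_ne_zero, div_one]
  have hF0 : F 0 ≠ 0 := by
    rw [hF.f0]
    exact inv_ne_zero (sub_ne_zero.2 hF.ne)
  have hG0 : (G 0).1 - z' * (G 0).2 = 0 := by
    obtain ⟨h1, h2⟩ := hGne 0 h0mem
    rw [e0, hpsi0, hz'] at h2
    exact (pt_coe_iff h1).1 h2.symm
  have hG02 : (G 0).2 ≠ 0 := by
    intro h4
    rw [h4, mul_zero, sub_zero] at hG0
    rcases (hGne 0 h0mem).1 with h1 | h1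
    · exact h1 hG0
    · exact h1 h4
  have hz'q : z' ≠ Q 0 0 := by
    intro h1
    rw [h1] at hG0
    exact hden 0 h0mem hG0
  have hSl : Sl v0 w r (Q 0) X m z' E' := by
    refine ⟨?_, ?_, hz'q, fun t ht => ⟨hle t ht, ?_⟩⟩
    · rw [hE]
      refine DifferentiableOn.div hGd.snd (hGd.fst.sub (DifferentiableOn.mul (fun t ht => ?_) hGd.snd)) hden
      exact ((h.bd 0).qan t (hle t ht)).differentiableAt.differentiableWithinAt
    · have e1 : E' 0 = (G 0).2 / ((G 0).1 - Q 0 0 * (G 0).2) := by rw [hE]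
      have e2 : (G 0).1 - Q 0 0 * (G 0).2 = (z' - Q 0 0) * (G 0).2 := by linear_combination hG0
      rw [e1, e2, div_eq_iff (mul_ne_zero (sub_ne_zero.2 hz'q) hG02), ← mul_assoc,
        inv_mul_cancel₀ (sub_ne_zero.2 hz'q), one_mul]
    · refine (fb_iff ((h.bd 0).cop t (hle t ht)) ((h.bd 0).deg t (hle t ht)) m (Q 0 t) (X t) (E' t)).1 ?_
      rw [hpsiE t ht]
      exact hland t ht
  have hVz := hV (m + 1) z hz1 0 F hF
  have hVz' := hV m z' hz2 0 E' hSl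
  have hq0 : DifferentiableAt ℂ (Q 0) 0 := ((h.bd 0).qan 0 h00).differentiableAt
  have hFd : DifferentiableAt ℂ F 0 := hF.df.differentiableAt (isOpen_ball.mem_nhds h0mem)
  have hEd : DifferentiableAt ℂ E' 0 := hSl.df.differentiableAt (isOpen_ball.mem_nhds h0mem)
  have hE0 : E' 0 ≠ 0 := by
    rw [hSl.f0]
    exact inv_ne_zero (sub_ne_zero.2 hz'q)
  have hD1 := vl_der hq0 hFd hF0
  have hD2 := vl_der hq0 hEd hE0
  have hZ0 : Q 0 0 + (F 0)⁻¹ = z := by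
    rw [hF.f0, inv_inv]
    ring
  have hb' : ev v0.2 ((fun t => Q 0 t + (F t)⁻¹) 0) ≠ 0 := by
    show ev v0.2 (Q 0 0 + (F 0)⁻¹) ≠ 0
    rw [hZ0, ← pol_eval]
    exact hb
  have h1 := step_der (w := w) hD1 hb'
  have hev : (fun t => Q 0 t + (E' t)⁻¹) =ᶠ[𝓝 0] fun t : ℂ =>
      ev (v0 + t • w).1 ((fun t => Q 0 t + (F t)⁻¹) t) / ev (v0 + t • w).2 ((fun t => Q 0 t + (F t)⁻¹) t) := by
    have hc2 : ContinuousAt (fun t => (G t).2) 0 :=
      (hGd.snd.differentiableAt (isOpen_ball.mem_nhds h0mem)).continuousAt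
    filter_upwards [hc2.eventually_ne hG02, hFd.continuousAt.eventually_ne hF0, isOpen_ball.mem_nhds h0mem]
      with t ht1 ht2 ht3
    have e1 : E' t = (G t).2 / ((G t).1 - Q 0 t * (G t).2) := by rw [hE]
    have e2 : G t = ((F t) ^ d * ev (v0 + t • w).1 ((1 + Q 0 t * F t) / F t),
        (F t) ^ d * ev (v0 + t • w).2 ((1 + Q 0 t * F t) / F t)) := by
      rw [hG]
      exact hs_fin (v0 + t • w) ht2
    have e3 : (1 + Q 0 t * F t) / F t = Q 0 t + (F t)⁻¹ := by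
      field_simp
      ring
    have e4 : Q 0 t + (E' t)⁻¹ = (G t).1 / (G t).2 := by
      rw [e1, inv_div]
      field_simp
      ring
    show Q 0 t + (E' t)⁻¹ = ev (v0 + t • w).1 (Q 0 t + (F t)⁻¹) / ev (v0 + t • w).2 (Q 0 t + (F t)⁻¹)
    rw [e4, e2, e3]
    exact mul_div_mul_left _ _ (pow_ne_zero _ ht2)
  have h2 := (hev.hasDerivAt_iff).2 h1
  have h3 := hD2.unique h2
  have h3' : vl (Q 0) E' = wv v0 (Q 0 0 + (F 0)⁻¹) / ev v0.2 (Q 0 0 + (F 0)⁻¹) ^ 2 * vl (Q 0) F +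
      xi v0 w (Q 0 0 + (F 0)⁻¹) := h3
  rw [hZ0, Pool.Agent.H61.TT.wv_pol, Pool.Agent.H61.TT.ev_pol] at h3'
  rw [hVz, hVz']
  exact h3'

theorem lx_bd (h : BM v0 w r Q X 1) (hV : LX v0 w r Q X V) : ∃ C : ℝ, ∀ (m : ℕ) (z : ℂ),
    (Rf v0)^[m] (z : OnePoint ℂ) = (X 0 : OnePoint ℂ) → ‖V z‖ ≤ C * (1 + ‖z‖ ^ 2) := by
  have hr := (h.bd 0).hr
  have h00 : ‖(0 : ℂ)‖ ≤ r := by rw [norm_zero]; exact hr.le
  have hle : ∀ t ∈ ball (0 : ℂ) r, ‖t‖ ≤ r := fun t ht => (mem_ball_zero_iff.1 ht).le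
  have h0mem : (0 : ℂ) ∈ ball (0 : ℂ) r := mem_ball_self hr
  obtain ⟨C, hC⟩ := Pool.Agent.H84.TE.lan3 (x := 0) hr (α := Q) (β := fun _ _ => 1)
    (fun i t ht => ((h.bd i).qan t (hle t ht)).differentiableAt.differentiableWithinAt)
    (fun i => differentiableOn_const _)
    (fun i j hij t ht => by
      rw [mul_one, mul_one]
      exact sub_ne_zero.2 (h.ne i j hij t (hle t ht)))
  refine ⟨C, fun m z hz => ?_⟩
  obtain ⟨F, hF⟩ := sl_ex (h.bd 0) hz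
  rw [hV m z hz 0 F hF]
  have hq0 : DifferentiableAt ℂ (Q 0) 0 := ((h.bd 0).qan 0 h00).differentiableAt
  have hFd : DifferentiableAt ℂ F 0 := hF.df.differentiableAt (isOpen_ball.mem_nhds h0mem)
  have hF0 : F 0 ≠ 0 := by
    rw [hF.f0]
    exact inv_ne_zero (sub_ne_zero.2 hF.ne)
  have hR : DifferentiableOn ℂ (fun t => 1 + Q 0 t * F t) (ball 0 r) := by
    intro t ht
    have hq : DifferentiableAt ℂ (Q 0) t := ((h.bd 0).qan t (hle t ht)).differentiableAt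
    have hFt : DifferentiableAt ℂ F t := hF.df.differentiableAt (isOpen_ball.mem_nhds ht)
    exact ((differentiableAt_const _).add (hq.mul hFt)).differentiableWithinAt
  have h1 := hC (fun t => 1 + Q 0 t * F t) F hR hF.df (fun j t ht h2 => by
    rw [one_mul] at h2
    have h3 := (pt_coe_iff (psi_ne (Q 0 t) (F t))).2 h2
    have h4 := sl_land (h.bd 0) hF ht
    have h5 : psi (Q 0 t) (F t) = (Q j t : OnePoint ℂ) := h3
    rw [h5] at h4
    exact (h.bd j).nq t (hle t ht) m h4)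
  have hd : deriv (fun t => 1 + Q 0 t * F t) 0 = deriv (Q 0) 0 * F 0 + Q 0 0 * deriv F 0 := by
    have h2 := (hq0.hasDerivAt.mul hFd.hasDerivAt).const_add (1 : ℂ)
    exact h2.deriv
  have e1 : deriv (fun t => 1 + Q 0 t * F t) 0 * F 0 - (1 + Q 0 0 * F 0) * deriv F 0 =
      F 0 ^ 2 * vl (Q 0) F := by
    rw [hd]
    unfold vl
    field_simp
    ring
  have e2 : 1 + Q 0 0 * F 0 = z * F 0 := by
    have h3 : z - Q 0 0 ≠ 0 := sub_ne_zero.2 hF.ne
    rw [hF.f0]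
    field_simp
    ring
  have h2 : ‖F 0 ^ 2 * vl (Q 0) F‖ ≤ C * (‖z * F 0‖ ^ 2 + ‖F 0‖ ^ 2) := by
    rw [← e1, ← e2]
    exact h1
  rw [norm_mul, norm_pow, norm_mul] at h2
  have h3 : 0 < ‖F 0‖ ^ 2 := by
    have := norm_pos_iff.2 hF0
    positivity
  have h4 : ‖F 0‖ ^ 2 * ‖vl (Q 0) F‖ ≤ ‖F 0‖ ^ 2 * (C * (1 + ‖z‖ ^ 2)) := by
    refine h2.trans (le_of_eq ?_)
    ring
  exact le_of_mul_le_mul_left h4 h3

end Pool.Agent.H66.UP
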