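import Pool.Agent.H66.UP.VS2
import Pool.Agent.H83.UP.LLG

/-!
# Module [H66 UP VS3]: the three point estimate for the velocities of the preimages

PROOF of `lx_three`. One mark `q = Q i`: let `x, y, z` land at `X 0`, pairwise different, at a common time (`sl_add`), with selections `Fx, Fy, Fz` (`sl_ex`). `φ = (Fx - Fy) / (Fz - Fy)` is holomorphic on `ball 0 r`, `φ ≠ 0`, `φ ≠ 1` (`sl_ne`).
`llg` (H83/UP/LLG): `‖φ'(0)‖ ≤ (5760 / r) ‖φ 0‖ (1 + |log ‖φ 0‖|)`. With `Fx 0 = (x - q)⁻¹` (`q = q 0` etc.): `φ 0 = ((x - y) (z - q)) / ((z - y) (x - q))` and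
`φ'(0) / φ 0 = (V x - V y) / (x - y) - (V z - V y) / (z - y) + (V z - q') / (z - q) - (V x - q') / (x - q)` (`V = q' - F' / F ^ 2` at `0`; field_simp).
Given `R`: the marks `Q i 0` have distances at least `2 δ` from each other (`h.ne`, `δ ≤ 1`); each of `x`, `z` is `δ`-close to at most one mark, so some mark `i` has `‖x - q‖, ‖z - q‖ ≥ δ`. `‖V x‖, ‖V z‖ ≤ C (1 + R ^ 2)` (`lx_bd`), so the last two terms are bounded by a constant `C1(R)`,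
and `|log ‖φ 0‖| ≤ |log (‖x - y‖ / ‖z - y‖)| + C2(R)`. Multiply by `‖x - y‖`. (`|log (‖x - y‖ / ‖z - y‖)| = |log (‖z - y‖ / ‖x - y‖)|`.) The case `x = z`: the left side is `0`.
-/

set_option autoImplicit false

open Filter Topology Polynomial Metric Set

namespace Pool.Agent.H66.UP

open Pool.Agent.H44.Fatou Pool.Agent.H32.BT Pool.Agent.H79.Eul Pool.Agent.H79.Par Pool.Agent.H64.PC

variable {d : ℕ} {v0 w : E d} {r : ℝ} {Q : Fin 3 → ℂ → ℂ} {X V : ℂ → ℂ}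

private theorem vs3_log {t δ K : ℝ} (ht : δ ≤ t) (hδ : 0 < δ) (htK : t ≤ K) : |Real.log t| ≤ δ⁻¹ + K := by
  have h0 : 0 < t := by linarith
  have h1 : 0 < δ⁻¹ := inv_pos.2 hδ
  rw [abs_le]
  constructor
  · have h4 := Real.log_le_sub_one_of_pos (inv_pos.2 h0)
    rw [Real.log_inv] at h4
    have h5 : t⁻¹ ≤ δ⁻¹ := inv_anti₀ hδ ht
    linarith
  · have h4 := Real.log_le_sub_one_of_pos h0
    linarith

private theorem vs3_alg {a b c A B C q' : ℂ} (ha : a ≠ 0) (hb : b ≠ 0) (hc : c ≠ 0) (hab : a ≠ b)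
    (hcb : c ≠ b) : A - B - (a - b) / (c - b) * (C - B) =
      (a - b) * (((((q' - A) / a ^ 2 - (q' - B) / b ^ 2) * (c⁻¹ - b⁻¹) -
        (a⁻¹ - b⁻¹) * ((q' - C) / c ^ 2 - (q' - B) / b ^ 2)) / (c⁻¹ - b⁻¹) ^ 2) /
          ((a⁻¹ - b⁻¹) / (c⁻¹ - b⁻¹)) - (q' - A) / a + (q' - C) / c) := by
  have h1 : a - b ≠ 0 := sub_ne_zero.2 hab
  have h2 : c - b ≠ 0 := sub_ne_zero.2 hcb
  have h3 : b - a ≠ 0 := sub_ne_zero.2 hab.symm
  have h4 : b - c ≠ 0 := sub_ne_zero.2 hcb.symm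
  have e1 : a⁻¹ - b⁻¹ = (b - a) / (a * b) := by
    field_simp
  have e2 : c⁻¹ - b⁻¹ = (b - c) / (c * b) := by
    field_simp
  rw [e1, e2]
  field_simp
  ring

private theorem vs3_pig {q : Fin 3 → ℂ} {δ : ℝ} (hq : ∀ i j, i ≠ j → 2 * δ ≤ ‖q i - q j‖) (x z : ℂ) :
    ∃ i, δ ≤ ‖x - q i‖ ∧ δ ≤ ‖z - q i‖ := by
  have key : ∀ (u : ℂ) (i j : Fin 3), i ≠ j → ‖u - q i‖ < δ → ‖u - q j‖ < δ → False := by
    intro u i j hij h1 h2
    have h3 : q i - q j = (u - q j) - (u - q i) := by ring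
    have h4 := hq i j hij
    rw [h3] at h4
    have h5 := norm_sub_le (u - q j) (u - q i)
    linarith
  by_contra hcon
  push Not at hcon
  have h0 := hcon 0
  have h1 := hcon 1
  have h2 := hcon 2
  by_cases x0 : δ ≤ ‖x - q 0‖
  · have z0 := h0 x0
    by_cases x1 : δ ≤ ‖x - q 1‖
    · exact key z 0 1 (by decide) z0 (h1 x1)
    · by_cases x2 : δ ≤ ‖x - q 2‖
      · exact key z 0 2 (by decide) z0 (h2 x2)
      · exact key x 1 2 (by decide) (not_le.1 x1) (not_le.1 x2)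
  · by_cases x1 : δ ≤ ‖x - q 1‖
    · by_cases x2 : δ ≤ ‖x - q 2‖
      · exact key z 1 2 (by decide) (h1 x1) (h2 x2)
      · exact key x 0 2 (by decide) (not_le.1 x0) (not_le.1 x2)
    · exact key x 0 1 (by decide) (not_le.1 x0) (not_le.1 x1)

private theorem vs3_del {q : Fin 3 → ℂ} (hq : ∀ i j, i ≠ j → q i ≠ q j) :
    ∃ δ : ℝ, 0 < δ ∧ ∀ i j, i ≠ j → 2 * δ ≤ ‖q i - q j‖ := by
  have h01 : 0 < ‖q 0 - q 1‖ := norm_pos_iff.2 (sub_ne_zero.2 (hq 0 1 (by decide)))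
  have h02 : 0 < ‖q 0 - q 2‖ := norm_pos_iff.2 (sub_ne_zero.2 (hq 0 2 (by decide)))
  have h12 : 0 < ‖q 1 - q 2‖ := norm_pos_iff.2 (sub_ne_zero.2 (hq 1 2 (by decide)))
  refine ⟨min ‖q 0 - q 1‖ (min ‖q 0 - q 2‖ ‖q 1 - q 2‖) / 2, by positivity, ?_⟩
  have e1 : min ‖q 0 - q 1‖ (min ‖q 0 - q 2‖ ‖q 1 - q 2‖) ≤ ‖q 0 - q 1‖ := min_le_left _ _
  have e2 : min ‖q 0 - q 1‖ (min ‖q 0 - q 2‖ ‖q 1 - q 2‖) ≤ ‖q 0 - q 2‖ :=
    (min_le_right _ _).trans (min_le_left _ _)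
  have e3 : min ‖q 0 - q 1‖ (min ‖q 0 - q 2‖ ‖q 1 - q 2‖) ≤ ‖q 1 - q 2‖ :=
    (min_le_right _ _).trans (min_le_right _ _)
  intro i j hij
  rw [mul_div_cancel₀ _ (two_ne_zero' ℝ)]
  fin_cases i <;> fin_cases j
  · exact absurd rfl hij
  · exact e1
  · exact e2
  · exact e1.trans (le_of_eq (norm_sub_rev _ _))
  · exact absurd rfl hij
  · exact e3
  · exact e2.trans (le_of_eq (norm_sub_rev _ _))
  · exact e3.trans (le_of_eq (norm_sub_rev _ _))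
  · exact absurd rfl hij

theorem lx_three (h : BM v0 w r Q X 1) (hV : LX v0 w r Q X V) (R : ℝ) : ∃ C : ℝ, 0 ≤ C ∧ ∀ x y z : ℂ,
    ‖x‖ ≤ R → ‖y‖ ≤ R → ‖z‖ ≤ R → (∃ m, (Rf v0)^[m] (x : OnePoint ℂ) = (X 0 : OnePoint ℂ)) →
    (∃ m, (Rf v0)^[m] (y : OnePoint ℂ) = (X 0 : OnePoint ℂ)) →
    (∃ m, (Rf v0)^[m] (z : OnePoint ℂ) = (X 0 : OnePoint ℂ)) → x ≠ y → z ≠ y →
    ‖V x - V y - (x - y) / (z - y) * (V z - V y)‖ ≤ C * ‖x - y‖ * (1 + |Real.log (‖z - y‖ / ‖x - y‖)|) := by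
  obtain ⟨C0, hC0⟩ := lx_bd h hV
  have hr := (h.bd 0).hr
  have h00 : ‖(0 : ℂ)‖ ≤ r := by rw [norm_zero]; exact hr.le
  have h0mem : (0 : ℂ) ∈ ball (0 : ℂ) r := mem_ball_self hr
  obtain ⟨δ, hδ, hδq⟩ := vs3_del (q := fun i => Q i 0) fun i j hij => h.ne i j hij 0 h00
  have hfix : ∀ t : ℂ, ‖t‖ ≤ r → Rf (v0 + t • w) (X t : OnePoint ℂ) = (X t : OnePoint ℂ) := fun t ht =>
    h.per t ht
  obtain ⟨K1, hK1⟩ : ∃ K1 : ℝ, K1 = ∑ i, ‖Q i 0‖ := ⟨_, rfl⟩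
  obtain ⟨K2, hK2⟩ : ∃ K2 : ℝ, K2 = ∑ i, ‖deriv (Q i) 0‖ := ⟨_, rfl⟩
  have hK1' : ∀ i, ‖Q i 0‖ ≤ K1 := by
    intro i
    rw [hK1]
    exact Finset.single_le_sum (f := fun i => ‖Q i 0‖) (fun j _ => norm_nonneg _) (Finset.mem_univ i)
  have hK2' : ∀ i, ‖deriv (Q i) 0‖ ≤ K2 := by
    intro i
    rw [hK2]
    exact Finset.single_le_sum (f := fun i => ‖deriv (Q i) 0‖) (fun j _ => norm_nonneg _)
      (Finset.mem_univ i)
  have hK10 : 0 ≤ K1 := (norm_nonneg _).trans (hK1' 0)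
  have hK20 : 0 ≤ K2 := (norm_nonneg _).trans (hK2' 0)
  obtain ⟨K, hK⟩ : ∃ K : ℝ, K = 2 * (δ⁻¹ + (|R| + K1)) := ⟨_, rfl⟩
  have hK0 : 0 ≤ K := by
    rw [hK]
    positivity
  obtain ⟨M, hM⟩ : ∃ M : ℝ, M = K2 + |C0| * (1 + R ^ 2) := ⟨_, rfl⟩
  have hM0 : 0 ≤ M := by
    rw [hM]
    positivity
  refine ⟨5760 / r * (1 + K) + 2 * (M / δ), by positivity, ?_⟩
  intro x y z hxR hyR hzR hx hy hz hxy hzy
  obtain ⟨mx, hx⟩ := hx
  obtain ⟨my, hy⟩ := hy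
  obtain ⟨mz, hz⟩ := hz
  have hR0 : 0 ≤ R := (norm_nonneg _).trans hxR
  have hl0 : 0 ≤ |Real.log (‖z - y‖ / ‖x - y‖)| := abs_nonneg _
  by_cases hxz : x = z
  · have e1 : V x - V y - (x - y) / (z - y) * (V z - V y) = 0 := by
      rw [hxz, div_self (sub_ne_zero.2 hzy)]
      ring
    rw [e1, norm_zero]
    positivity
  obtain ⟨i, hix, hiz⟩ := vs3_pig hδq x z
  obtain ⟨Fx, hFx⟩ := sl_ex (h.bd i) hx
  obtain ⟨Fy, hFy⟩ := sl_ex (h.bd i) hy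
  obtain ⟨Fz, hFz⟩ := sl_ex (h.bd i) hz
  have hVx : V x = vl (Q i) Fx := hV mx x hx i Fx hFx
  have hVy : V y = vl (Q i) Fy := hV my y hy i Fy hFy
  have hVz : V z = vl (Q i) Fz := hV mz z hz i Fz hFz
  have gx := sl_add (h.bd i) hfix hFx (my + mz)
  have gy := sl_add (h.bd i) hfix hFy (mx + mz)
  have gz := sl_add (h.bd i) hfix hFz (mx + my)
  have ey : my + (mx + mz) = mx + (my + mz) := by omega
  have ez : mz + (mx + my) = mx + (my + mz) := by omega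
  rw [ey] at gy
  rw [ez] at gz
  have nxy := sl_ne (h.bd i) gx gy hxy
  have nzy := sl_ne (h.bd i) gz gy hzy
  have nxz := sl_ne (h.bd i) gx gz hxz
  obtain ⟨φ, hφ⟩ : ∃ φ : ℂ → ℂ, φ = fun t => (Fx t - Fy t) / (Fz t - Fy t) := ⟨_, rfl⟩
  have hφd : DifferentiableOn ℂ φ (ball 0 r) := by
    rw [hφ]
    exact (hFx.df.sub hFy.df).div (hFz.df.sub hFy.df) fun t ht => sub_ne_zero.2 (nzy t ht)
  have hφ01 : ∀ t ∈ ball (0 : ℂ) r, φ t ≠ 0 ∧ φ t ≠ 1 := by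
    intro t ht
    rw [hφ]
    refine ⟨div_ne_zero (sub_ne_zero.2 (nxy t ht)) (sub_ne_zero.2 (nzy t ht)), ?_⟩
    intro h1
    rw [div_eq_one_iff_eq (sub_ne_zero.2 (nzy t ht))] at h1
    exact nxz t ht (sub_left_injective h1)
  have hllg := Pool.Agent.H83.UP.llg hr hφd hφ01
  obtain ⟨a, ha⟩ : ∃ a, a = x - Q i 0 := ⟨_, rfl⟩
  obtain ⟨b, hb⟩ : ∃ b, b = y - Q i 0 := ⟨_, rfl⟩
  obtain ⟨c, hc⟩ : ∃ c, c = z - Q i 0 := ⟨_, rfl⟩
  have ha0 : a ≠ 0 := by rw [ha]; exact sub_ne_zero.2 hFx.ne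
  have hb0 : b ≠ 0 := by rw [hb]; exact sub_ne_zero.2 hFy.ne
  have hc0 : c ≠ 0 := by rw [hc]; exact sub_ne_zero.2 hFz.ne
  have hab : a ≠ b := by
    intro h1
    apply hxy
    rw [ha, hb] at h1
    exact sub_left_injective h1
  have hcb : c ≠ b := by
    intro h1
    apply hzy
    rw [hc, hb] at h1
    exact sub_left_injective h1
  have hFx0 : Fx 0 = a⁻¹ := by rw [ha]; exact hFx.f0
  have hFy0 : Fy 0 = b⁻¹ := by rw [hb]; exact hFy.f0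
  have hFz0 : Fz 0 = c⁻¹ := by rw [hc]; exact hFz.f0
  obtain ⟨q', hq'⟩ : ∃ q', q' = deriv (Q i) 0 := ⟨_, rfl⟩
  have hDx : deriv Fx 0 = (q' - V x) / a ^ 2 := by
    rw [hVx, vl, hFx0, hq']
    field_simp
    ring
  have hDy : deriv Fy 0 = (q' - V y) / b ^ 2 := by
    rw [hVy, vl, hFy0, hq']
    field_simp
    ring
  have hDz : deriv Fz 0 = (q' - V z) / c ^ 2 := by
    rw [hVz, vl, hFz0, hq']
    field_simp
    ring
  have dx : HasDerivAt Fx (deriv Fx 0) 0 :=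
    (hFx.df.differentiableAt (isOpen_ball.mem_nhds h0mem)).hasDerivAt
  have dy : HasDerivAt Fy (deriv Fy 0) 0 :=
    (hFy.df.differentiableAt (isOpen_ball.mem_nhds h0mem)).hasDerivAt
  have dz : HasDerivAt Fz (deriv Fz 0) 0 :=
    (hFz.df.differentiableAt (isOpen_ball.mem_nhds h0mem)).hasDerivAt
  have hφ' : HasDerivAt φ (((deriv Fx 0 - deriv Fy 0) * (Fz 0 - Fy 0) -
      (Fx 0 - Fy 0) * (deriv Fz 0 - deriv Fy 0)) / (Fz 0 - Fy 0) ^ 2) 0 := by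
    rw [hφ]
    exact (dx.sub dy).div (dz.sub dy) (sub_ne_zero.2 (nzy 0 h0mem))
  have hφ0 : φ 0 = (a⁻¹ - b⁻¹) / (c⁻¹ - b⁻¹) := by
    rw [hφ, ← hFx0, ← hFy0, ← hFz0]
  have hkey := vs3_alg (A := V x) (B := V y) (C := V z) (q' := q') ha0 hb0 hc0 hab hcb
  have eab : a - b = x - y := by rw [ha, hb]; ring
  have ecb : c - b = z - y := by rw [hc, hb]; ring
  rw [hFx0, hFy0, hFz0, hDx, hDy, hDz] at hφ'
  rw [← hφ'.deriv, ← hφ0, eab, ecb] at hkey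
  rw [hkey, norm_mul]
  have hφ00 : 0 < ‖φ 0‖ := norm_pos_iff.2 (hφ01 0 h0mem).1
  have n1 : ‖deriv φ 0 / φ 0‖ ≤ 5760 / r * (1 + |Real.log ‖φ 0‖|) := by
    rw [norm_div, div_le_iff₀ hφ00]
    refine hllg.trans (le_of_eq ?_)
    ring
  have hna : δ ≤ ‖a‖ := by rw [ha]; exact hix
  have hnc : δ ≤ ‖c‖ := by rw [hc]; exact hiz
  have hna' : ‖a‖ ≤ |R| + K1 := by
    rw [ha]
    refine (norm_sub_le _ _).trans (add_le_add ?_ (hK1' i))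
    exact hxR.trans (le_abs_self R)
  have hnc' : ‖c‖ ≤ |R| + K1 := by
    rw [hc]
    refine (norm_sub_le _ _).trans (add_le_add ?_ (hK1' i))
    exact hzR.trans (le_abs_self R)
  have n2 : |Real.log ‖φ 0‖| ≤ |Real.log (‖z - y‖ / ‖x - y‖)| + K := by
    have e1 : φ 0 = ((x - y) / (z - y)) * (c / a) := by
      have h1 : a - b ≠ 0 := sub_ne_zero.2 hab
      have h2 : c - b ≠ 0 := sub_ne_zero.2 hcb
      have h3 : b - a ≠ 0 := sub_ne_zero.2 hab.symm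
      have h4 : b - c ≠ 0 := sub_ne_zero.2 hcb.symm
      have e1 : a⁻¹ - b⁻¹ = (b - a) / (a * b) := by
        field_simp
      have e2 : c⁻¹ - b⁻¹ = (b - c) / (c * b) := by
        field_simp
      rw [hφ0, ← eab, ← ecb, e1, e2]
      field_simp
      ring
    have hxy0 : 0 < ‖x - y‖ := norm_pos_iff.2 (sub_ne_zero.2 hxy)
    have hzy0 : 0 < ‖z - y‖ := norm_pos_iff.2 (sub_ne_zero.2 hzy)
    have ha1 : 0 < ‖a‖ := norm_pos_iff.2 ha0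
    have hc1 : 0 < ‖c‖ := norm_pos_iff.2 hc0
    rw [e1, norm_mul, norm_div, norm_div, Real.log_mul (by positivity) (by positivity),
      Real.log_div hxy0.ne' hzy0.ne', Real.log_div hzy0.ne' hxy0.ne', Real.log_div hc1.ne' ha1.ne']
    have l1 := vs3_log hna hδ hna'
    have l2 := vs3_log hnc hδ hnc'
    have l3 : Real.log ‖x - y‖ - Real.log ‖z - y‖ = -(Real.log ‖z - y‖ - Real.log ‖x - y‖) := by ring
    rw [l3]
    refine (abs_add_le _ _).trans ?_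
    rw [abs_neg]
    refine add_le_add le_rfl ?_
    refine (abs_sub _ _).trans ?_
    rw [hK]
    linarith
  have n3 : ∀ u : ℂ, ‖u‖ ≤ R → (∃ m, (Rf v0)^[m] (u : OnePoint ℂ) = (X 0 : OnePoint ℂ)) →
      ‖q' - V u‖ ≤ M := by
    rintro u hu ⟨m, hm⟩
    refine (norm_sub_le _ _).trans ?_
    rw [hM]
    refine add_le_add (by rw [hq']; exact hK2' i) ?_
    refine (hC0 m u hm).trans ?_
    refine mul_le_mul (le_abs_self C0) ?_ (by positivity) (abs_nonneg C0)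
    have := norm_nonneg u
    nlinarith
  have n4 : ‖(q' - V x) / a‖ ≤ M / δ := by
    rw [norm_div]
    exact div_le_div₀ hM0 (n3 x hxR ⟨mx, hx⟩) hδ hna
  have n5 : ‖(q' - V z) / c‖ ≤ M / δ := by
    rw [norm_div]
    exact div_le_div₀ hM0 (n3 z hzR ⟨mz, hz⟩) hδ hnc
  have n6 : ‖deriv φ 0 / φ 0 - (q' - V x) / a + (q' - V z) / c‖ ≤
      5760 / r * (1 + (|Real.log (‖z - y‖ / ‖x - y‖)| + K)) + M / δ + M / δ := by
    refine (norm_add_le _ _).trans (add_le_add ((norm_sub_le _ _).trans (add_le_add ?_ n4)) n5)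
    exact n1.trans (mul_le_mul_of_nonneg_left (by linarith) (by positivity))
  have hxy0 : 0 ≤ ‖x - y‖ := norm_nonneg _
  have hMd : 0 ≤ M / δ := by positivity
  have h57 : 0 ≤ 5760 / r := by positivity
  obtain ⟨l, hl⟩ : ∃ l, l = |Real.log (‖z - y‖ / ‖x - y‖)| := ⟨_, rfl⟩
  rw [← hl] at n6 hl0 ⊢
  calc ‖x - y‖ * ‖deriv φ 0 / φ 0 - (q' - V x) / a + (q' - V z) / c‖
      ≤ ‖x - y‖ * (5760 / r * (1 + (l + K)) + M / δ + M / δ) := mul_le_mul_of_nonneg_left n6 hxy0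
    _ ≤ ‖x - y‖ * ((5760 / r * (1 + K) + 2 * (M / δ)) * (1 + l)) := by
        refine mul_le_mul_of_nonneg_left ?_ hxy0
        have e1 : 0 ≤ 5760 / r * K * l := by positivity
        have e2 : 0 ≤ 2 * (M / δ) * l := by positivity
        nlinarith
    _ = (5760 / r * (1 + K) + 2 * (M / δ)) * ‖x - y‖ * (1 + l) := by ring

end Pool.Agent.H66.UP
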