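import Pool.Agent.H64.PC.VB6

/-!
# Module [H66 UP VS4]: the data `BM` for a repelling cycle of a map which is not a limit of maps with more attracted critical points

PROOF. This is the part of the proof of `vb` (H64/PC/VB6) which constructs `hBM`: copy it (`cyc_mv`, `mark_ne` are public there; `lim_pair` is private, copy it).
-/

set_option autoImplicit false

open Filter Topology Polynomial Metric Set

namespace Pool.Agent.H66.UP

open Pool.Agent.H44.Fatou Pool.Agent.H32.BT Pool.Agent.H79.Eul Pool.Agent.H79.Par Pool.Agent.H64.PC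
open Pool.Agent.H35.EX Pool.Agent.H44.ND Pool.Agent.H79.ES Pool.Agent.H47.NN Pool.Agent.H47.NM Pool.Agent.H44.NP

variable {d : ℕ}

private theorem lim_pair {v0 w : E d} {X : ℂ → ℂ} (hX : ContinuousAt X 0) :
    Tendsto (fun t : ℂ => ((v0 + t • w, X t) : E d × ℂ)) (𝓝 0) (𝓝 (v0, X 0)) := by
  have h1 : Tendsto (fun t : ℂ => v0 + t • w) (𝓝 0) (𝓝 v0) := by
    have h2 : Continuous fun t : ℂ => v0 + t • w := by fun_prop
    have h3 := h2.tendsto 0
    rwa [zero_smul, add_zero] at h3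
  exact h1.prodMk_nhds hX

theorem bm_ex (hd : 2 ≤ d) {v0 : E d} (hcop : IsCoprime (pol v0.1) (pol v0.2))
    (hdeg : max (pol v0.1).natDegree (pol v0.2).natDegree = d) (hup : ¬ Up v0) {p : ℕ} (hp : 0 < p)
    {x : ℕ → ℂ} {m : ℂ} (hc : Cyc (pol v0.1) (pol v0.2) p x m) (hm : 1 < ‖m‖)
    {n : Fin 3 → ℕ} {y : Fin 3 → ℕ → ℂ} {l : Fin 3 → ℂ} (hn : ∀ j, 0 < n j)
    (hy : ∀ j, Cyc (pol v0.1) (pol v0.2) (n j) (y j) (l j)) (hl : ∀ j, l j ≠ 1)
    (hyy : ∀ i j, i ≠ j → y i 0 ≠ y j 0) (hyx : ∀ j, ∀ i < n j, y j i ≠ x 0) (w : E d) :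
    ∃ (r : ℝ) (Q : Fin 3 → ℂ → ℂ) (X : ℂ → ℂ), BM v0 w r Q X p ∧ X 0 = x 0 ∧ ∀ j, Q j 0 = y j 0 := by
  have hm1 : m ≠ 1 := by
    intro h1
    rw [h1, norm_one] at hm
    exact lt_irrefl _ hm
  obtain ⟨X, hX0, hX⟩ := cyc_mv w hc hm1
  choose Y hY0 hY using fun j => cyc_mv w (hy j) (hl j)
  have hXc : ContinuousAt X 0 := hX.self_of_nhds.1.continuousAt
  have hYc : ∀ j, ContinuousAt (Y j) 0 := fun j => (hY j).self_of_nhds.1.continuousAt
  -- the maps near `v0`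
  have hlim : Tendsto (fun t : ℂ => v0 + t • w) (𝓝 0) (𝓝 v0) := by
    have h2 : Continuous fun t : ℂ => v0 + t • w := by fun_prop
    have h3 := h2.tendsto 0
    rwa [zero_smul, add_zero] at h3
  have hnear := hlim.eventually (nup_near hd hcop hdeg hup)
  -- the multiplier
  have hmu : ∀ᶠ t in 𝓝 (0 : ℂ), 1 < ‖mu p (v0 + t • w, X t)‖ := by
    obtain ⟨h1, h2, h3⟩ := cyc_wi hc
    have h4 := (mu_an p h1).continuousAt.tendsto
    rw [h3] at h4
    have h5 := lim_pair (v0 := v0) (w := w) hXc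
    rw [hX0] at h5
    exact (h4.comp h5).norm.eventually (lt_mem_nhds hm)
  have hnq : ∀ j, ∀ᶠ t in 𝓝 (0 : ℂ), ∀ k : ℕ,
      (Rf (v0 + t • w))^[k] (Y j t : OnePoint ℂ) ≠ (X t : OnePoint ℂ) := fun j =>
    mark_ne (hn j) (hy j) (hY0 j) (hYc j) hXc (fun i hi => by rw [hX0]; exact hyx j i hi)
      ((hY j).mono fun t ht => ht.2)
  have hne : ∀ i j, i ≠ j → ∀ᶠ t in 𝓝 (0 : ℂ), Y i t ≠ Y j t := by
    intro i j hij
    have h1 : Tendsto (fun t => Y i t - Y j t) (𝓝 0) (𝓝 (Y i 0 - Y j 0)) := (hYc i).sub (hYc j)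
    have h2 : Y i 0 - Y j 0 ≠ 0 := by
      rw [hY0, hY0]
      exact sub_ne_zero.2 (hyy i j hij)
    filter_upwards [h1.eventually_ne h2] with t ht
    exact sub_ne_zero.1 ht
  have hall : ∀ᶠ t in 𝓝 (0 : ℂ), (AnalyticAt ℂ X t ∧
      (v0 + t • w, X t) ∈ (Gp p : Set (E d × ℂ)) ∧ wi p (v0 + t • w, X t) = X t) ∧
      ((IsCoprime (pol (v0 + t • w).1) (pol (v0 + t • w).2) ∧
        max (pol (v0 + t • w).1).natDegree (pol (v0 + t • w).2).natDegree = d) ∧ ¬ Up (v0 + t • w)) ∧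
      1 < ‖mu p (v0 + t • w, X t)‖ ∧
      (∀ j, AnalyticAt ℂ (Y j) t) ∧
      (∀ j, ∀ k : ℕ, (Rf (v0 + t • w))^[k] (Y j t : OnePoint ℂ) ≠ (X t : OnePoint ℂ)) ∧
      ∀ i j, i ≠ j → Y i t ≠ Y j t := by
    refine hX.and (hnear.and (hmu.and (Filter.Eventually.and ?_ (Filter.Eventually.and ?_ ?_))))
    · rw [Filter.eventually_all]
      exact fun j => (hY j).mono fun t ht => ht.1
    · rw [Filter.eventually_all]
      exact hnq
    · rw [Filter.eventually_all]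
      intro i
      rw [Filter.eventually_all]
      intro j
      by_cases hij : i = j
      · exact Filter.Eventually.of_forall fun t h => absurd hij h
      · filter_upwards [hne i j hij] with t ht _
        exact ht
  obtain ⟨ε, hε, hball⟩ := Metric.eventually_nhds_iff_ball.1 hall
  have hin : ∀ t : ℂ, ‖t‖ ≤ ε / 2 → t ∈ ball (0 : ℂ) ε := fun t ht =>
    mem_ball_zero_iff.2 (by linarith)
  have hBM : BM v0 w (ε / 2) Y X p := by
    refine ⟨fun j => ⟨by linarith, fun t ht => ?_, fun t ht => ?_, fun t ht => ?_, fun t ht => ?_,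
      fun t ht => ?_, fun t ht c hcr k => ?_⟩, fun i j hij t ht => ?_, hp, fun t ht => ?_⟩
    · exact (hball t (hin t ht)).2.1.1.1
    · exact (hball t (hin t ht)).2.1.1.2
    · exact (hball t (hin t ht)).2.2.2.1 j
    · exact (hball t (hin t ht)).1.1
    · exact (hball t (hin t ht)).2.2.2.2.1 j
    · have h1 := hball t (hin t ht)
      exact nland hd h1.2.1.1.1 h1.2.1.1.2 h1.2.1.2 hp (wi_cyc h1.1.2.1 h1.1.2.2) h1.2.2.1 hcr k
    · exact (hball t (hin t ht)).2.2.2.2.2 i j hij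
    · have h1 := hball t (hin t ht)
      have h2 := cyc_per (wi_cyc h1.1.2.1 h1.1.2.2)
      exact h2
  exact ⟨ε / 2, Y, X, hBM, hX0, hY0⟩

end Pool.Agent.H66.UP
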