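import Pool.Agent.H66.UP.VS3
import Pool.Agent.H66.UP.VS4
import Pool.Agent.H66.UP.Ext
import Pool.Agent.H64.NC.SFM

/-!
# Module [H66 UP VS5]: the velocities for Julia set = sphere, in the chart where `0`, `1`, `∞` are fixed

PROOF of `vel_s`. `xi_surj` (H61/TT/Surj): `w : E d` with `xi v w z = η z / b z ^ 2`. Four cycles in the plane: the fixed points `1` (it is `x`, `p = 1`) and `0`, and two other periodic points `p4`, `p5` (exactly as in `sph_chart`, H64/NC/SFM: `per_dense`, `mk_cyc`, `orb_back`; their orbits stay in the plane since `∞` is fixed, multipliers of modulus `> 1`).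
`bm_ex` (VS4): `BM v w r Q X 1`, `X 0 = 1`. `lx_ex`: `V`. `L = {z | ∃ m, (Rf v)^[m] z = 1}` is dense (`(jp_of ..).tr`, as in `pas_s`). `TP L V` is `lx_three`, the bound `lx_bd` (replace `C` by `|C|`). `ext_tp`: the continuous extension `V'`.
The equation: if `b z ≠ 0`, `z ∈ L` then `gg z ∈ L` (the orbit of `1` is `1`: use the time `m` for `gg z` from the time `m + 1` for `z`) and `lx_step`. For general `z` with `b z ≠ 0` take `z k → z` in `L`, `b (z k) ≠ 0` eventually; `gg`, `dg`, `xi` are continuous at `z` (`gg_cont`, `dg_cont`).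
-/

set_option autoImplicit false

open Filter Topology Polynomial Metric Set MeasureTheory

namespace Pool.Agent.H66.UP

open Pool.Agent.H44.Fatou (rat rat_continuous rat_coe rat_coe_of_ne pt crit_coe)
open Pool.Agent.H32.BT Pool.Agent.H79.Eul Pool.Agent.H79.Par
open Pool.Agent.H35.EX Pool.Agent.H44.RR Pool.Agent.H56.HR Pool.Agent.H44.RC Pool.Agent.H47.RJ
open Pool.Agent.H47.NM Pool.Agent.H47.NN Pool.Agent.H44.ND Pool.Agent.H79.ES Pool.Agent.H44.RG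
open Pool.Agent.H44.CP Pool.Agent.H47.PS Pool.Agent.H64.NC
open Pool.Agent.H61.TT Pool.Agent.H57.CP Pool.Agent.H3.NC Pool.Agent.H78.NS

variable {d : ℕ} {v : E d}

/-- a velocity on the plane for the vector field `η / b ^ 2` -/
def VelP (a b η : Polynomial ℂ) (V : ℂ → ℂ) : Prop := Continuous V ∧
  (∀ z : ℂ, b.eval z ≠ 0 → V (gg a b z) = Pool.Agent.H61.TT.dg a b z * V z + η.eval z / b.eval z ^ 2) ∧ TP univ V ∧
  ∃ C : ℝ, ∀ z : ℂ, ‖V z‖ ≤ C * (1 + ‖z‖ ^ 2)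

/-- the data `BM` of the fixed point `1` -/
private theorem vs5_bm (hd : 2 ≤ d) (hcop : IsCoprime (pol v.1) (pol v.2))
    (hdeg : max (pol v.1).natDegree (pol v.2).natDegree = d) (hup : ¬ Up v) (hJ : JS (Rf v) = univ)
    (h0 : Rf v ((0 : ℂ) : OnePoint ℂ) = ((0 : ℂ) : OnePoint ℂ))
    (h1 : Rf v ((1 : ℂ) : OnePoint ℂ) = ((1 : ℂ) : OnePoint ℂ))
    (hi : Rf v OnePoint.infty = OnePoint.infty) (w : E d) :
    ∃ (r : ℝ) (Q : Fin 3 → ℂ → ℂ) (X : ℂ → ℂ), Pool.Agent.H64.PC.BM v w r Q X 1 ∧ X 0 = 1 := by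
  have hper : ∀ U : Set (OnePoint ℂ), IsOpen U → U.Nonempty →
      ∃ p ∈ U, ∃ N : ℕ, 1 ≤ N ∧ (Rf v)^[N] p = p := by
    rintro U hU ⟨x, hx⟩
    exact Pool.Agent.H44.NR.per_dense hd hcop hdeg (hJ ▸ mem_univ x) (hU.mem_nhds hx)
  have hJa : ∀ x, x ∈ JS (Rf v) := fun x => hJ ▸ mem_univ x
  have next : ∀ F : Set (OnePoint ℂ), F.Finite →
      ∃ (p : OnePoint ℂ) (N : ℕ), p ∉ F ∧ 1 ≤ N ∧ (Rf v)^[N] p = p := by
    intro F hF
    obtain ⟨p, hpU, N, hN, hpN⟩ := hper _ hF.isClosed.isOpen_compl hF.infinite_compl.nonempty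
    exact ⟨p, N, hpU, hN, hpN⟩
  obtain ⟨P0, hP0⟩ : ∃ P0 : OnePoint ℂ, P0 = ((0 : ℂ) : OnePoint ℂ) := ⟨_, rfl⟩
  obtain ⟨P1, hP1⟩ : ∃ P1 : OnePoint ℂ, P1 = ((1 : ℂ) : OnePoint ℂ) := ⟨_, rfl⟩
  rw [← hP0] at h0
  rw [← hP1] at h1
  have n01 : P0 ≠ P1 := by
    rw [hP0, hP1]
    intro h
    exact zero_ne_one (OnePoint.coe_injective h)
  have n0i : P0 ≠ OnePoint.infty := by rw [hP0]; exact OnePoint.coe_ne_infty _
  have n1i : P1 ≠ OnePoint.infty := by rw [hP1]; exact OnePoint.coe_ne_infty _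
  obtain ⟨p4, N4, g4, c4, e4⟩ := next {P0, P1, OnePoint.infty} (by simp)
  obtain ⟨p5, N5, g5, c5, e5⟩ := next ({P0, P1, OnePoint.infty} ∪ Orb (Rf v) p4)
    (Finite.union (by simp) (orb_fin c4 e4))
  have n40 : p4 ≠ P0 := fun h => g4 (by rw [h]; simp)
  have n41 : p4 ≠ P1 := fun h => g4 (by rw [h]; simp)
  have n4i : p4 ≠ OnePoint.infty := fun h => g4 (by rw [h]; simp)
  have n50 : p5 ≠ P0 := fun h => g5 (Or.inl (by rw [h]; simp))
  have n51 : p5 ≠ P1 := fun h => g5 (Or.inl (by rw [h]; simp))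
  have n5i : p5 ≠ OnePoint.infty := fun h => g5 (Or.inl (by rw [h]; simp))
  have n54 : p5 ≠ p4 := fun h => g5 (Or.inr (by rw [h]; exact ⟨0, rfl⟩))
  have hoff : ∀ {q : OnePoint ℂ} {N : ℕ}, 1 ≤ N → (Rf v)^[N] q = q → q ≠ OnePoint.infty →
      ∀ i : ℕ, (Rf v)^[i] q ≠ OnePoint.infty := by
    intro q N hN hq h i he
    obtain ⟨j, hj⟩ := orb_back hN hq i
    rw [he, Function.iterate_fixed hi] at hj
    exact h hj.symm
  have e0' : (Rf v)^[1] P0 = P0 := h0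
  have e1' : (Rf v)^[1] P1 = P1 := h1
  obtain ⟨x, m, k1, m1, z1⟩ := mk_cyc hd hcop hdeg hup (hJa P1) le_rfl e1' (hoff le_rfl e1' n1i)
  obtain ⟨y0, l0, k0, m0, z0⟩ := mk_cyc hd hcop hdeg hup (hJa P0) le_rfl e0' (hoff le_rfl e0' n0i)
  obtain ⟨y4, l4, k4, m4, z4⟩ := mk_cyc hd hcop hdeg hup (hJa p4) c4 e4 (hoff c4 e4 n4i)
  obtain ⟨y5, l5, k5, m5, z5⟩ := mk_cyc hd hcop hdeg hup (hJa p5) c5 e5 (hoff c5 e5 n5i)
  have key1 : ∀ l : ℂ, 1 < ‖l‖ → l ≠ 1 := by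
    rintro l hl rfl
    rw [norm_one] at hl
    exact lt_irrefl _ hl
  have key2 : ∀ {q q' : OnePoint ℂ} {a b : ℂ}, (a : OnePoint ℂ) = q → (b : OnePoint ℂ) = q' →
      q ≠ q' → a ≠ b := by
    rintro q q' a b ha hb hne rfl
    exact hne (ha.symm.trans hb)
  have key3 : ∀ {q : OnePoint ℂ} {N : ℕ} {y : ℕ → ℂ}, 1 ≤ N → (Rf v)^[N] q = q → q ≠ P1 →
      (∀ i, (y i : OnePoint ℂ) = (Rf v)^[i] q) → ∀ i, y i ≠ x 0 := by
    intro q N y hN hq hne hy i he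
    have h2 := hy i
    rw [he, z1 0] at h2
    have h3 : P1 = (Rf v)^[i] q := h2
    obtain ⟨j, hj⟩ := orb_back hN hq i
    rw [← h3, Function.iterate_fixed h1] at hj
    exact hne hj.symm
  obtain ⟨r, Q, X, hBM, hX, -⟩ := bm_ex hd hcop hdeg hup one_pos k1 m1 (n := ![1, N4, N5]) (y := ![y0, y4, y5])
    (l := ![l0, l4, l5]) (by
      intro j
      fin_cases j
      · exact one_pos
      · exact c4
      · exact c5) (by
      intro j
      fin_cases j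
      · exact k0
      · exact k4
      · exact k5) (by
      intro j
      fin_cases j
      · exact key1 _ m0
      · exact key1 _ m4
      · exact key1 _ m5) (by
      intro i j hij
      fin_cases i <;> fin_cases j <;>
        simp only [ne_eq, Fin.zero_eta, Fin.mk_one, Fin.reduceFinMk, not_true_eq_false] at hij ⊢
      · exact key2 (z0 0) (z4 0) n40.symm
      · exact key2 (z0 0) (z5 0) n50.symm
      · exact key2 (z4 0) (z0 0) n40
      · exact key2 (z4 0) (z5 0) n54.symm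
      · exact key2 (z5 0) (z0 0) n50
      · exact key2 (z5 0) (z4 0) n54) (by
      intro j i _
      fin_cases j
      · exact key3 le_rfl e0' n01 z0 i
      · exact key3 c4 e4 n41 z4 i
      · exact key3 c5 e5 n51 z5 i) w
  refine ⟨r, Q, X, hBM, ?_⟩
  rw [hX]
  have h2 := z1 0
  rw [hP1] at h2
  exact OnePoint.coe_injective h2

theorem vel_s (hd : 2 ≤ d) (hcop : IsCoprime (pol v.1) (pol v.2))
    (hdeg : max (pol v.1).natDegree (pol v.2).natDegree = d) (hup : ¬ Up v) (hJ : JS (Rf v) = univ)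
    (h0 : Rf v ((0 : ℂ) : OnePoint ℂ) = ((0 : ℂ) : OnePoint ℂ))
    (h1 : Rf v ((1 : ℂ) : OnePoint ℂ) = ((1 : ℂ) : OnePoint ℂ))
    (hi : Rf v OnePoint.infty = OnePoint.infty) {η : Polynomial ℂ} (hη : η.natDegree ≤ 2 * d) :
    ∃ V : ℂ → ℂ, VelP (pol v.1) (pol v.2) η V := by
  have hrd : RatD d (pol v.1) (pol v.2) := ⟨hd, hcop, hdeg⟩
  obtain ⟨w, hw⟩ := xi_surj (v0 := v) hrd hη
  obtain ⟨r, Q, X, hBM, hX⟩ := vs5_bm hd hcop hdeg hup hJ h0 h1 hi w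
  obtain ⟨V, hV⟩ := lx_ex hBM
  obtain ⟨L, hL⟩ : ∃ L : Set ℂ, L = {z : ℂ | ∃ m, (Rf v)^[m] (z : OnePoint ℂ) = (X 0 : OnePoint ℂ)} := ⟨_, rfl⟩
  have hmem : ∀ z, z ∈ L ↔ ∃ m, (Rf v)^[m] (z : OnePoint ℂ) = (X 0 : OnePoint ℂ) := fun z => by rw [hL]; exact Iff.rfl
  have hXf : Rf v (X 0 : OnePoint ℂ) = (X 0 : OnePoint ℂ) := by rw [hX]; exact h1
  have hLd : Dense L := by
    intro z1
    rw [Metric.mem_closure_iff]
    intro ε hε
    obtain ⟨m, u, hu, hum⟩ := (Pool.Agent.H1.PU.jp_of hrd (c := 0) (hJ ▸ mem_univ _)).tr z1 (hJ ▸ mem_univ _)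
      (X 0 : OnePoint ℂ) (hJ ▸ mem_univ _) ε hε
    refine ⟨u, (hmem u).2 ⟨m, hum⟩, ?_⟩
    rw [dist_comm]
    exact hu
  have hTP : TP L V := by
    intro R
    obtain ⟨C, hC, h⟩ := lx_three hBM hV R
    exact ⟨C, hC, fun x hx y hy z hz nx ny nz hxy hzy =>
      h x y z nx ny nz ((hmem x).1 hx) ((hmem y).1 hy) ((hmem z).1 hz) hxy hzy⟩
  obtain ⟨C, hC⟩ := lx_bd hBM hV
  obtain ⟨V', hc, he, hT, hb⟩ := ext_tp hLd hTP (B := C) (fun x hx => by
    obtain ⟨m, hm⟩ := (hmem x).1 hx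
    exact hC m x hm)
  obtain ⟨a, ha⟩ : ∃ a, a = pol v.1 := ⟨_, rfl⟩
  obtain ⟨b, hbd⟩ : ∃ b, b = pol v.2 := ⟨_, rfl⟩
  have hRf : Rf v = rat a b := by rw [ha, hbd]; rfl
  have heq : ∀ z ∈ L, b.eval z ≠ 0 →
      V' (gg a b z) - (Pool.Agent.H61.TT.dg a b z * V' z + η.eval z / b.eval z ^ 2) = 0 := by
    intro z hz hbz
    obtain ⟨m, hm⟩ := (hmem z).1 hz
    have h2 : Rf v (z : OnePoint ℂ) = ((gg a b z : ℂ) : OnePoint ℂ) := by
      rw [hRf]
      exact rat_coe_of_ne hbz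
    have h3 : (Rf v)^[m] ((gg a b z : ℂ) : OnePoint ℂ) = (X 0 : OnePoint ℂ) := by
      rw [← h2, ← Function.iterate_succ_apply, Function.iterate_succ_apply', hm, hXf]
    have h4 := lx_step hBM hV hm (by rw [← hbd]; exact hbz)
    rw [hw, ← ha, ← hbd] at h4
    rw [he _ ((hmem _).2 ⟨m, h3⟩), he _ hz, h4, sub_self]
  refine ⟨V', ?_⟩
  rw [← ha, ← hbd]
  refine ⟨hc, fun z hz => ?_, hT, C, hb⟩
  have hnb : (𝓝[L] z).NeBot := mem_closure_iff_nhdsWithin_neBot.1 (hLd z)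
  have hggc : ContinuousAt (gg a b) z := gg_cont hz
  have hcont : ContinuousAt (fun z => V' (gg a b z) -
      (Pool.Agent.H61.TT.dg a b z * V' z + η.eval z / b.eval z ^ 2)) z := by
    refine ContinuousAt.sub ?_ ?_
    · exact ContinuousAt.comp (f := gg a b) (g := V') hc.continuousAt hggc
    · refine ContinuousAt.add ((dg_cont hz).mul hc.continuousAt) ?_
      exact η.continuous.continuousAt.div (b.continuous.continuousAt.pow 2) (pow_ne_zero 2 hz)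
  have h5 : Tendsto (fun z => V' (gg a b z) -
      (Pool.Agent.H61.TT.dg a b z * V' z + η.eval z / b.eval z ^ 2)) (𝓝[L] z) (𝓝 0) := by
    refine tendsto_const_nhds.congr' ?_
    have h6 : ∀ᶠ y in 𝓝[L] z, b.eval y ≠ 0 :=
      mem_nhdsWithin_of_mem_nhds (b.continuous.continuousAt.eventually_ne hz)
    filter_upwards [h6, self_mem_nhdsWithin] with y hy hyL
    exact (heq y hyL hy).symm
  have h7 := tendsto_nhds_unique (hcont.tendsto.mono_left nhdsWithin_le_nhds) h5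
  exact sub_eq_zero.1 h7

end Pool.Agent.H66.UP
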